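import Pool.Agent.Y799.FS.Vec

/-! # Models of sets of small doubling: one prime at a time -/

set_option autoImplicit false

open Finset
open scoped Pointwise

namespace Pool.Agent.Y799.FS

variable {G : Type} [AddCommGroup G]

open Classical in
/-- the part of `A` in a coset of `L` -/
noncomputable def fib (A : Finset G) (L : AddSubgroup G) (w : G) : Finset G :=
  A.filter (fun a => a - w ∈ L)

open Classical in
lemma mem_fib {A : Finset G} {L : AddSubgroup G} {w a : G} :
    a ∈ fib A L w ↔ a ∈ A ∧ a - w ∈ L := by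
  unfold fib
  rw [Finset.mem_filter]

/-- the state after `n` steps -/
def State (A : Finset G) (Q : ℝ) (L : AddSubgroup G) (n : ℕ) : Prop :=
  ∃ (H : Type) (_ : AddCommGroup H) (_ : Fintype H) (Ω : Type) (_ : Fintype Ω)
    (φ : G → H) (χ : G → Ω) (M : ℕ),
    Fintype.card Ω ≤ 2 ^ n ∧
    (∀ x y z w, χ x = χ y → χ x = χ z → χ x = χ w → x + y = z + w →
      φ x + φ y = φ z + φ w) ∧
    (∀ x ∈ A, ∀ y ∈ A, ∀ z ∈ A, ∀ w ∈ A, χ x = χ y → χ x = χ z → χ x = χ w →
      φ x + φ y = φ z + φ w → x + y - (z + w) ∈ L) ∧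
    (∀ w, (fib A L w).card ≤ M) ∧ (Fintype.card H : ℝ) * M ≤ Q ^ n * A.card

lemma state_zero (A : Finset G) (Q : ℝ) : State A Q ⊤ 0 := by
  refine ⟨Unit, inferInstance, inferInstance, Unit, inferInstance, fun _ => (), fun _ => (),
    A.card, by simp, fun _ _ _ _ _ _ _ _ => rfl, fun _ _ _ _ _ _ _ _ _ _ _ _ => trivial,
    fun w => Finset.card_le_card fun a ha => (mem_fib.1 ha).1, by simp⟩

variable [DecidableEq G]

lemma plue {A : Finset G} (hA : A.Nonempty) {K : ℝ} (hK : ((A + A).card : ℝ) ≤ K * A.card) :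
    ((((A + A) - (A + A)) + (A + A)).card : ℝ) ≤ K ^ 6 * A.card := by
  have h := Finset.pluennecke_ruzsa_inequality_nsmul_sub_nsmul_add hA A 4 2
  have e : 4 • A - 2 • A = ((A + A) - (A + A)) + (A + A) := by
    rw [show (4 : ℕ) = 2 + 2 from rfl, add_nsmul, two_nsmul, sub_eq_add_neg, sub_eq_add_neg,
      add_right_comm]
  rw [e] at h
  have h' : ((((A + A) - (A + A)) + (A + A)).card : ℝ) ≤
      (((A + A).card : ℝ) / A.card) ^ (4 + 2) * A.card := by
    have := (NNRat.cast_le (K := ℝ)).2 h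
    push_cast at this
    exact this
  have hpos : (0 : ℝ) < A.card := by exact_mod_cast hA.card_pos
  refine h'.trans ?_
  have h2 : ((A + A).card : ℝ) / A.card ≤ K := by
    rw [div_le_iff₀ hpos]; exact hK
  have h3 : (((A + A).card : ℝ) / A.card) ^ (4 + 2) ≤ K ^ 6 :=
    pow_le_pow_left₀ (by positivity) h2 6
  exact mul_le_mul_of_nonneg_right h3 hpos.le

open Classical in
lemma count {A D : Finset G} (L : AddSubgroup G) {V : Type} [AddCommGroup V] (ρ : G →+ V)
    (w : G) :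
    ((D.filter (fun d => d ∈ L)).image ρ).card *
      ((A.image (QuotientAddGroup.mk : G → G ⧸ L)).card * (fib A (L ⊓ ρ.ker) w).card) ≤
      (D + (A + A)).card := by
  have hb : ∀ y ∈ (D.filter (fun d => d ∈ L)).image ρ, ∃ d, d ∈ D ∧ d ∈ L ∧ ρ d = y := by
    intro y hy
    obtain ⟨d, hd, rfl⟩ := Finset.mem_image.1 hy
    rw [Finset.mem_filter] at hd
    exact ⟨d, hd.1, hd.2, rfl⟩
  have ha : ∀ q ∈ A.image (QuotientAddGroup.mk : G → G ⧸ L), ∃ a, a ∈ A ∧ (QuotientAddGroup.mk a : G ⧸ L) = q := by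
    intro q hq
    obtain ⟨a, ha, rfl⟩ := Finset.mem_image.1 hq
    exact ⟨a, ha, rfl⟩
  choose! b hbD hbL hbρ using hb
  choose! r hrA hrq using ha
  rw [← Finset.card_product, ← Finset.card_product]
  refine Finset.card_le_card_of_injOn (fun t => b t.1 + (r t.2.1 + t.2.2)) ?_ ?_
  · rintro ⟨y, q, g⟩ ht
    rw [Finset.mem_coe, Finset.mem_product, Finset.mem_product] at ht
    exact Finset.add_mem_add (hbD y ht.1)
      (Finset.add_mem_add (hrA q ht.2.1) (mem_fib.1 ht.2.2).1)
  · rintro ⟨y, q, g⟩ ht ⟨y', q', g'⟩ ht' h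
    rw [Finset.mem_coe, Finset.mem_product, Finset.mem_product] at ht ht'
    simp only at ht ht' h
    obtain ⟨hy, hq, hg⟩ := ht
    obtain ⟨hy', hq', hg'⟩ := ht'
    have hgg : g - g' ∈ L ⊓ ρ.ker := by
      have := (L ⊓ ρ.ker).sub_mem (mem_fib.1 hg).2 (mem_fib.1 hg').2
      rwa [sub_sub_sub_cancel_right] at this
    have hq1 : q = q' := by
      rw [← hrq q hq, ← hrq q' hq']
      rw [QuotientAddGroup.eq]
      have e : -(r q) + r q' = (b y - b y') + (g - g') := by
        have : r q + g + b y = r q' + g' + b y' := by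
          rw [add_comm (r q + g), add_comm (r q' + g')]; exact h
        have h2 : r q' = r q + g + b y - b y' - g' := by rw [this]; abel
        rw [h2]; abel
      rw [e]
      exact L.add_mem (L.sub_mem (hbL y hy) (hbL y' hy')) hgg.1
    subst hq1
    have h3 : b y + g = b y' + g' := by
      have : b y + (r q + g) = b y' + (r q + g') := h
      have h4 : r q + (b y + g) = r q + (b y' + g') := by
        rw [add_left_comm, this, add_left_comm]
      exact add_left_cancel h4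
    have h5 : ρ g = ρ g' := by
      have : ρ (g - g') = 0 := hgg.2
      rw [map_sub, sub_eq_zero] at this
      exact this
    have hy1 : y = y' := by
      have := congrArg ρ h3
      rw [map_add, map_add, hbρ y hy, hbρ y' hy', h5] at this
      exact add_right_cancel this
    subst hy1
    have h6 : g = g' := add_left_cancel h3
    rw [h6]

theorem step {A : Finset G} (hA : A.Nonempty) {K : ℝ} (hK : ((A + A).card : ℝ) ≤ K * A.card)
    {L : AddSubgroup G} {n : ℕ} (hS : State A (4 * K ^ 6) L n) (p : ℕ) [Fact p.Prime] {V : Type}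
    [AddCommGroup V] [Module (ZMod p) V] (ρ : G →+ V) :
    State A (4 * K ^ 6) (L ⊓ ρ.ker) (n + 1) := by
  classical
  obtain ⟨H, _, _, Ω, _, φ, χ, M, hΩ, h1, h2, hM, hQ⟩ := hS
  obtain ⟨D, hD⟩ : ∃ D : Finset G, D = (A + A) - (A + A) := ⟨_, rfl⟩
  obtain ⟨B0, hB0⟩ : ∃ B0 : Finset V, B0 = (D.filter (fun d => d ∈ L)).image ρ := ⟨_, rfl⟩
  obtain ⟨H', _, _, φ', χ', hc, hφ'⟩ := vec_model p (B0.erase 0).card (B0.erase 0) rfl
    (fun x hx => (Finset.mem_erase.1 hx).1)
  obtain ⟨w0, hw0, hmax⟩ :=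
    Finset.exists_max_image A (fun w => (fib A (L ⊓ ρ.ker) w).card) hA
  refine ⟨H × H', inferInstance, inferInstance, Ω × Bool, inferInstance,
    fun g => (φ g, φ' (ρ g)), fun g => (χ g, χ' (ρ g)), (fib A (L ⊓ ρ.ker) w0).card,
    ?_, ?_, ?_, ?_, ?_⟩
  · rw [Fintype.card_prod, Fintype.card_bool, pow_succ]
    exact Nat.mul_le_mul_right 2 hΩ
  · intro x y z w e1 e2 e3 h
    simp only [Prod.mk.injEq] at e1 e2 e3
    have i1 := h1 x y z w e1.1 e2.1 e3.1 h
    have i2 := (hφ' (ρ x) (ρ y) (ρ z) (ρ w) e1.2 e2.2 e3.2).1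
      (by rw [← map_add, ← map_add, h])
    show (φ x + φ y, φ' (ρ x) + φ' (ρ y)) = (φ z + φ w, φ' (ρ z) + φ' (ρ w))
    rw [i1, i2]
  · intro x hx y hy z hz w hw e1 e2 e3 h
    simp only [Prod.mk.injEq] at e1 e2 e3
    have h' : (φ x + φ y, φ' (ρ x) + φ' (ρ y)) = (φ z + φ w, φ' (ρ z) + φ' (ρ w)) := h
    rw [Prod.mk.injEq] at h'
    have i1 := h2 x hx y hy z hz w hw e1.1 e2.1 e3.1 h'.1
    have i2 := (hφ' (ρ x) (ρ y) (ρ z) (ρ w) e1.2 e2.2 e3.2).2 h'.2
    refine ⟨i1, ?_⟩
    show ρ (x + y - (z + w)) = 0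
    by_contra hne
    apply i2
    rw [Finset.mem_erase]
    have e : ρ (x + y - (z + w)) = ρ x + ρ y - (ρ z + ρ w) := by
      rw [map_sub, map_add, map_add]
    rw [← e]
    refine ⟨hne, ?_⟩
    rw [hB0]
    apply Finset.mem_image_of_mem
    rw [Finset.mem_filter]
    refine ⟨?_, i1⟩
    rw [hD]
    exact Finset.sub_mem_sub (Finset.add_mem_add hx hy) (Finset.add_mem_add hz hw)
  · intro w
    rcases (fib A (L ⊓ ρ.ker) w).eq_empty_or_nonempty with h | ⟨a, ha⟩
    · rw [h]; simp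
    · have ha' := mem_fib.1 ha
      refine le_trans (Finset.card_le_card ?_) (hmax a ha'.1)
      intro g hg
      rw [mem_fib] at hg ⊢
      refine ⟨hg.1, ?_⟩
      have := (L ⊓ ρ.ker).sub_mem hg.2 ha'.2
      rwa [sub_sub_sub_cancel_right] at this
  · -- cardinalities
    obtain ⟨N, hN⟩ : ∃ N, N = (A.image (QuotientAddGroup.mk : G → G ⧸ L)).card := ⟨_, rfl⟩
    obtain ⟨M', hM'⟩ : ∃ M', M' = (fib A (L ⊓ ρ.ker) w0).card := ⟨_, rfl⟩
    have c1 : B0.card * (N * M') ≤ (D + (A + A)).card := by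
      rw [hB0, hN, hM']
      exact count L ρ w0
    have c2 : ((B0.card : ℝ) * (N * M')) ≤ K ^ 6 * A.card := by
      have := plue hA hK
      rw [← hD] at this
      refine le_trans ?_ this
      exact_mod_cast c1
    have c3 : A.card ≤ M * N := by
      rw [hN]
      apply Finset.card_le_mul_card_image
      intro q hq
      obtain ⟨w, hw, rfl⟩ := Finset.mem_image.1 hq
      refine le_trans (Finset.card_le_card ?_) (hM w)
      intro g hg
      rw [Finset.mem_filter] at hg
      rw [mem_fib]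
      refine ⟨hg.1, ?_⟩
      have := QuotientAddGroup.eq.1 hg.2.symm
      rwa [neg_add_eq_sub] at this
    have c3' : (A.card : ℝ) ≤ M * N := by exact_mod_cast c3
    have hApos : (0 : ℝ) < A.card := by exact_mod_cast hA.card_pos
    have hNpos : (0 : ℝ) < N := by
      have : 0 < N := by
        rw [hN]; exact (hA.image _).card_pos
      exact_mod_cast this
    have h0B : (0 : V) ∈ B0 := by
      rw [hB0, Finset.mem_image]
      refine ⟨0, ?_, map_zero ρ⟩
      rw [Finset.mem_filter]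
      refine ⟨?_, L.zero_mem⟩
      obtain ⟨a, ha⟩ := hA
      rw [hD, ← sub_self (a + a)]
      exact Finset.sub_mem_sub (Finset.add_mem_add ha ha) (Finset.add_mem_add ha ha)
    have hBpos : 0 < B0.card := Finset.card_pos.2 ⟨0, h0B⟩
    have c4 : Fintype.card H' ≤ 4 * B0.card := by
      refine hc.trans (max_le (by omega) ?_)
      exact Nat.mul_le_mul_left 4 (Finset.card_le_card (Finset.erase_subset _ _))
    have c4' : (Fintype.card H' : ℝ) ≤ 4 * B0.card := by exact_mod_cast c4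
    rw [← hM', Fintype.card_prod]
    push_cast
    have hH : (0 : ℝ) ≤ Fintype.card H := Nat.cast_nonneg _
    have hM0 : (0 : ℝ) ≤ M' := Nat.cast_nonneg _
    have hK6 : 0 ≤ K ^ 6 := by positivity
    -- multiply by `N`
    rw [← mul_le_mul_iff_left₀ hNpos]
    calc (Fintype.card H : ℝ) * Fintype.card H' * M' * N
        ≤ (Fintype.card H : ℝ) * (4 * B0.card) * M' * N := by gcongr
      _ = 4 * (Fintype.card H : ℝ) * (B0.card * (N * M')) := by ring
      _ ≤ 4 * (Fintype.card H : ℝ) * (K ^ 6 * A.card) := by gcongr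
      _ ≤ 4 * (Fintype.card H : ℝ) * (K ^ 6 * (M * N)) := by gcongr
      _ = (4 * K ^ 6) * ((Fintype.card H : ℝ) * M) * N := by ring
      _ ≤ (4 * K ^ 6) * ((4 * K ^ 6) ^ n * A.card) * N := by gcongr
      _ = (4 * K ^ 6) ^ (n + 1) * A.card * N := by ring

/-- the Freiman condition -/
def Raw {H : Type} [AddCommGroup H] (A' : Finset G) (f : G → H) : Prop :=
  ∀ a ∈ A', ∀ b ∈ A', ∀ c ∈ A', ∀ d ∈ A', (f a + f b = f c + f d ↔ a + b = c + d)

omit [DecidableEq G] in
lemma iso_of_raw {H : Type} [AddCommGroup H] {A' : Finset G} {f : G → H} (h : Raw A' f) :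
    IsAddFreimanIso 2 (A' : Set G) (f '' (A' : Set G)) f := by
  rw [isAddFreimanIso_two]
  refine ⟨⟨Set.mapsTo_image _ _, ?_, Set.surjOn_image _ _⟩, ?_⟩
  · intro a ha b hb hab
    have := (h a ha a ha b hb a ha).1 (by rw [hab])
    exact add_right_cancel this
  · intro a ha b hb c hc d hd
    exact h a ha b hb c hc d hd

theorem final {A : Finset G} (hA : A.Nonempty) {K : ℝ} {L : AddSubgroup G} {n : ℕ}
    (hS : State A (4 * K ^ 6) L n) (hL : ∀ x ∈ (A + A) - (A + A), x ∈ L → x = 0) :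
    ∃ A' ⊆ A, A.card ≤ 2 ^ n * A'.card ∧ ∃ (H : Type) (_ : AddCommGroup H) (_ : Fintype H),
      (Fintype.card H : ℝ) ≤ (8 * K ^ 6) ^ n * A'.card ∧ ∃ f : G → H, Raw A' f := by
  classical
  obtain ⟨H, _, _, Ω, _, φ, χ, M, hΩ, h1, h2, hM, hQ⟩ := hS
  obtain ⟨a0, ha0⟩ := id hA
  -- the largest part
  obtain ⟨ω, hω⟩ : ∃ ω : Ω, A.card ≤ 2 ^ n * (A.filter (fun a => χ a = ω)).card := by
    by_contra hcon
    push Not at hcon
    have e := Finset.card_eq_sum_card_fiberwise (f := χ) (s := A) (t := (univ : Finset Ω))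
      (fun _ _ => mem_coe.2 (mem_univ _))
    have h3 : ∑ ω : Ω, 2 ^ n * (A.filter (fun a => χ a = ω)).card < ∑ _ω : Ω, A.card := by
      apply Finset.sum_lt_sum_of_nonempty ⟨χ a0, mem_univ _⟩
      intro ω _
      exact hcon ω
    rw [← Finset.mul_sum, ← e, Finset.sum_const, Finset.card_univ, smul_eq_mul] at h3
    exact absurd (Nat.mul_le_mul_right A.card hΩ) (not_le.2 h3)
  refine ⟨A.filter (fun a => χ a = ω), Finset.filter_subset _ _, hω, H, inferInstance,
    inferInstance, ?_, φ, ?_⟩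
  · have hM1 : 1 ≤ M := by
      refine le_trans ?_ (hM a0)
      exact Finset.card_pos.2 ⟨a0, mem_fib.2 ⟨ha0, by rw [sub_self]; exact L.zero_mem⟩⟩
    have hM1' : (1 : ℝ) ≤ M := by exact_mod_cast hM1
    have hω' : (A.card : ℝ) ≤ 2 ^ n * (A.filter (fun a => χ a = ω)).card := by exact_mod_cast hω
    have hH : (0 : ℝ) ≤ Fintype.card H := Nat.cast_nonneg _
    calc (Fintype.card H : ℝ) ≤ (Fintype.card H : ℝ) * M := by nlinarith
      _ ≤ (4 * K ^ 6) ^ n * A.card := hQ
      _ ≤ (4 * K ^ 6) ^ n * (2 ^ n * (A.filter (fun a => χ a = ω)).card) := by gcongr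
      _ = (8 * K ^ 6) ^ n * (A.filter (fun a => χ a = ω)).card := by
          rw [← mul_assoc, ← mul_pow]
          congr 2
          ring
  · intro a ha b hb c hc d hd
    rw [Finset.mem_filter] at ha hb hc hd
    have e1 : χ a = χ b := by rw [ha.2, hb.2]
    have e2 : χ a = χ c := by rw [ha.2, hc.2]
    have e3 : χ a = χ d := by rw [ha.2, hd.2]
    constructor
    · intro h
      have h3 := h2 a ha.1 b hb.1 c hc.1 d hd.1 e1 e2 e3 h
      have h4 := hL _ (Finset.sub_mem_sub (Finset.add_mem_add ha.1 hb.1)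
        (Finset.add_mem_add hc.1 hd.1)) h3
      exact sub_eq_zero.1 h4
    · intro h
      exact h1 a b c d e1 e2 e3 h

end Pool.Agent.Y799.FS
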