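import Pool.Agent.Y799.FS.Chain

/-! # Models of sets of small doubling: groups whose torsion has squarefree exponent -/

set_option autoImplicit false

open Finset
open scoped Pointwise DirectSum

namespace Pool.Agent.Y799.FS

/-- splitting off the torsion -/
lemma split (G : Type) [AddCommGroup G] [AddGroup.FG G] {N : ℕ}
    (htor : ∀ (g : G) (m : ℕ), 0 < m → m • g = 0 → N • g = 0) :
    ∃ (n : ℕ) (T : Type) (_ : AddCommGroup T) (π : G →+ T) (φ : G →+ (Fin n → ℤ)),
      (∀ t : T, N • t = 0) ∧ ∀ g, π g = 0 → φ g = 0 → g = 0 := by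
  classical
  obtain ⟨n, ι, _, p, hp, e, ⟨E⟩⟩ := AddCommGroup.equiv_free_prod_directSum_zmod G
  refine ⟨n, ⨁ i : ι, ZMod (p i ^ e i), inferInstance,
    (AddMonoidHom.snd _ _).comp E.toAddMonoidHom,
    (Finsupp.coeFnAddHom).comp ((AddMonoidHom.fst _ _).comp E.toAddMonoidHom), ?_, ?_⟩
  · intro t
    have hpos : 0 < ∏ i : ι, p i ^ e i := Finset.prod_pos fun i _ => pow_pos (hp i).pos _
    have h1 : (∏ i : ι, p i ^ e i) • t = 0 := by
      apply DFinsupp.ext
      intro i
      show ((∏ i : ι, p i ^ e i) • t) i = 0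
      rw [DFinsupp.smul_apply]
      obtain ⟨c, hc⟩ : p i ^ e i ∣ ∏ i : ι, p i ^ e i := Finset.dvd_prod_of_mem _ (mem_univ i)
      rw [hc, nsmul_eq_mul, Nat.cast_mul, ZMod.natCast_self, zero_mul, zero_mul]
    have h2 : (∏ i : ι, p i ^ e i) • (E.symm (0, t)) = 0 := by
      rw [← map_nsmul, Prod.smul_mk, h1, smul_zero]
      exact map_zero E.symm
    have h3 := htor _ _ hpos h2
    rw [← map_nsmul] at h3
    have h4 : N • ((0 : Fin n →₀ ℤ), t) = 0 := (AddEquiv.map_eq_zero_iff E.symm).1 h3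
    rw [Prod.smul_mk, Prod.mk_eq_zero] at h4
    exact h4.2
  · intro g h1 h2
    have e1 : (E g).2 = 0 := h1
    have e2 : (E g).1 = 0 := by
      ext i
      exact congrFun h2 i
    have : E g = 0 := Prod.ext e2 e1
    exact (AddEquiv.map_eq_zero_iff E).1 this

lemma torsion_zero {T : Type} [AddCommGroup T] {N : ℕ} (hN : Squarefree N) {t : T}
    (ht : N • t = 0) (h : ∀ p ∈ N.primeFactors, (N / p) • t = 0) : t = 0 := by
  by_contra hne
  have h1 : addOrderOf t ≠ 1 := fun h => hne (AddMonoid.addOrderOf_eq_one_iff.1 h)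
  obtain ⟨q, hq, hqd⟩ := Nat.exists_prime_and_dvd h1
  have hqN : q ∣ N := hqd.trans (addOrderOf_dvd_of_nsmul_eq_zero ht)
  have hN0 : N ≠ 0 := hN.ne_zero
  have h2 := h q (Nat.mem_primeFactors.2 ⟨hq, hqN, hN0⟩)
  have h3 : q ∣ N / q := hqd.trans (addOrderOf_dvd_of_nsmul_eq_zero h2)
  have h4 : q * q ∣ N := by
    obtain ⟨c, hc⟩ := h3
    refine ⟨c, ?_⟩
    rw [mul_assoc, ← hc, Nat.mul_div_cancel' hqN]
  exact hq.one_lt.ne' (Nat.isUnit_iff.1 (hN q h4))

variable {G : Type} [AddCommGroup G] [DecidableEq G]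

lemma induct {A : Finset G} (hA : A.Nonempty) {K : ℝ} (hK : ((A + A).card : ℝ) ≤ K * A.card)
    {N : ℕ} {T : Type} [AddCommGroup T] (π : G →+ T) (hT : ∀ t : T, N • t = 0) (S : Finset ℕ) :
    S ⊆ N.primeFactors → ∃ L : AddSubgroup G, State A (4 * K ^ 6) L S.card ∧
      ∀ g ∈ L, ∀ p ∈ S, (N / p) • π g = 0 := by
  classical
  induction S using Finset.induction_on with
  | empty =>
    intro _
    refine ⟨⊤, ?_, fun g _ p hp => absurd hp (Finset.notMem_empty p)⟩
    rw [Finset.card_empty]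
    exact state_zero A _
  | insert p S hpS ih =>
    intro hsub
    obtain ⟨L, hL, hL2⟩ := ih fun x hx => hsub (Finset.mem_insert_of_mem hx)
    have hp := Nat.mem_primeFactors.1 (hsub (Finset.mem_insert_self p S))
    haveI : Fact p.Prime := ⟨hp.1⟩
    let V := (nsmulAddMonoidHom p : T →+ T).ker
    letI : Module (ZMod p) V := AddCommGroup.zmodModule (n := p) (by
      rintro ⟨x, hx⟩
      apply Subtype.ext
      exact hx)
    let ρ : G →+ V := AddMonoidHom.codRestrict ((nsmulAddMonoidHom (N / p)).comp π) V (by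
      intro g
      show p • ((N / p) • π g) = 0
      rw [← mul_nsmul, Nat.div_mul_cancel hp.2.1, hT])
    refine ⟨L ⊓ ρ.ker, ?_, ?_⟩
    · rw [Finset.card_insert_of_notMem hpS]
      exact step hA hK hL p ρ
    · rintro g ⟨hg1, hg2⟩ q hq
      rcases Finset.mem_insert.1 hq with rfl | hq
      · have : ρ g = 0 := hg2
        exact congrArg Subtype.val this
      · exact hL2 g hg1 q hq

theorem fg_case [AddGroup.FG G] {N : ℕ} (hN : Squarefree N)
    (htor : ∀ (g : G) (m : ℕ), 0 < m → m • g = 0 → N • g = 0)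
    {A : Finset G} (hA : A.Nonempty) {K : ℝ} (hK : ((A + A).card : ℝ) ≤ K * A.card) :
    ∃ A' ⊆ A, A.card ≤ 2 ^ (N.primeFactors.card + 1) * A'.card ∧
      ∃ (H : Type) (_ : AddCommGroup H) (_ : Fintype H),
        (Fintype.card H : ℝ) ≤ (8 * K ^ 6) ^ (N.primeFactors.card + 1) * A'.card ∧
        ∃ f : G → H, Raw A' f := by
  classical
  obtain ⟨n, T, _, π, φ, hT, hinj⟩ := split G htor
  obtain ⟨L, hL, hL2⟩ := induct hA hK π hT N.primeFactors (Finset.Subset.refl _)
  -- a large prime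
  obtain ⟨B, hB⟩ : ∃ B : ℕ, B = ∑ d ∈ (A + A) - (A + A), ∑ i, (φ d i).natAbs := ⟨_, rfl⟩
  obtain ⟨P, hPB, hP⟩ := Nat.exists_infinite_primes (B + 1)
  haveI : Fact P.Prime := ⟨hP⟩
  let ρ : G →+ (Fin n → ZMod P) :=
    { toFun := fun g i => ((φ g i : ℤ) : ZMod P)
      map_zero' := by
        funext i
        simp
      map_add' := by
        intro x y
        funext i
        simp }
  have h1 := step hA hK hL P ρ
  refine final hA h1 ?_
  rintro x hx ⟨hxL, hxρ⟩
  have hρ : ρ x = 0 := hxρ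
  apply hinj
  · exact torsion_zero hN (hT _) fun p hp => hL2 x hxL p hp
  · funext i
    have h2 : ((φ x i : ℤ) : ZMod P) = 0 := congrFun hρ i
    rw [ZMod.intCast_zmod_eq_zero_iff_dvd] at h2
    have h3 : (φ x i).natAbs ≤ B := by
      rw [hB]
      refine le_trans (Finset.single_le_sum (f := fun i => (φ x i).natAbs)
        (fun _ _ => Nat.zero_le _) (mem_univ i)) ?_
      exact Finset.single_le_sum (f := fun d => ∑ i, (φ d i).natAbs)
        (fun _ _ => Nat.zero_le _) hx
    by_contra hne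
    have h4 : P ≤ (φ x i).natAbs :=
      Nat.le_of_dvd (Int.natAbs_pos.2 hne) (Int.natCast_dvd.1 h2)
    omega

/-- **Main theorem.** -/
theorem main {N : ℕ} (hN : Squarefree N)
    (htor : ∀ (g : G) (m : ℕ), 0 < m → m • g = 0 → N • g = 0)
    {A : Finset G} (hA : A.Nonempty) {K : ℝ} (hK : ((A + A).card : ℝ) ≤ K * A.card) :
    ∃ A' ⊆ A, A.card ≤ 2 ^ (N.primeFactors.card + 1) * A'.card ∧
      ∃ (H : Type) (_ : AddCommGroup H) (_ : Fintype H),
        (Fintype.card H : ℝ) ≤ (8 * K ^ 6) ^ (N.primeFactors.card + 1) * A'.card ∧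
        ∃ f : G → H, Raw A' f := by
  classical
  obtain ⟨G0, hG0⟩ : ∃ G0 : AddSubgroup G, G0 = AddSubgroup.closure (A : Set G) := ⟨_, rfl⟩
  haveI : AddGroup.FG G0 := by
    rw [hG0]
    infer_instance
  have hmem : ∀ a ∈ A, a ∈ G0 := fun a ha => by
    rw [hG0]; exact AddSubgroup.subset_closure ha
  obtain ⟨A0, hA0⟩ : ∃ A0 : Finset G0, A0 = A.subtype (· ∈ G0) := ⟨_, rfl⟩
  have hmap : A0.image Subtype.val = A := by
    ext a
    rw [Finset.mem_image]
    constructor
    · rintro ⟨b, hb, rfl⟩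
      rw [hA0, Finset.mem_subtype] at hb
      exact hb
    · intro ha
      exact ⟨⟨a, hmem a ha⟩, by rw [hA0, Finset.mem_subtype]; exact ha, rfl⟩
  have hinj : Function.Injective (Subtype.val : G0 → G) := Subtype.val_injective
  have hcard : A0.card = A.card := by
    rw [← hmap, Finset.card_image_of_injective _ hinj]
  have hadd : (A0 + A0).image Subtype.val = A + A := by
    have : (A0 + A0).image (G0.subtype : G0 → G) =
        A0.image (G0.subtype : G0 → G) + A0.image (G0.subtype : G0 → G) :=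
      Finset.image_add (G0.subtype)
    have e : (G0.subtype : G0 → G) = Subtype.val := rfl
    rw [e, hmap] at this
    exact this
  have hcard2 : (A0 + A0).card = (A + A).card := by
    rw [← hadd, Finset.card_image_of_injective _ hinj]
  have hne : A0.Nonempty := by
    rw [← Finset.card_pos, hcard]; exact hA.card_pos
  have htor' : ∀ (g : G0) (m : ℕ), 0 < m → m • g = 0 → N • g = 0 := by
    intro g m hm h
    apply Subtype.ext
    have := congrArg Subtype.val h
    exact htor g m hm this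
  obtain ⟨A1, hA1, hc1, H, _, _, hH, f, hf⟩ := fg_case hN htor' hne (K := K)
    (by rw [hcard, hcard2]; exact hK)
  have hc2 : (A1.image Subtype.val : Finset G).card = A1.card :=
    Finset.card_image_of_injective _ hinj
  refine ⟨A1.image Subtype.val, ?_, ?_, H, inferInstance, inferInstance, ?_,
    fun g => if h : g ∈ G0 then f ⟨g, h⟩ else 0, ?_⟩
  · rw [← hmap]
    exact Finset.image_subset_image hA1
  · rw [hc2, ← hcard]; exact hc1
  · rw [hc2]; exact hH
  · intro a ha b hb c hc d hd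
    obtain ⟨a', ha', rfl⟩ := Finset.mem_image.1 ha
    obtain ⟨b', hb', rfl⟩ := Finset.mem_image.1 hb
    obtain ⟨c', hc', rfl⟩ := Finset.mem_image.1 hc
    obtain ⟨d', hd', rfl⟩ := Finset.mem_image.1 hd
    simp only [dif_pos (Subtype.prop a'), dif_pos (Subtype.prop b'), dif_pos (Subtype.prop c'),
      dif_pos (Subtype.prop d')]
    rw [hf a' ha' b' hb' c' hc' d' hd', ← Subtype.coe_inj]
    rfl

end Pool.Agent.Y799.FS
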