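import Pool.Agent.Y799.FS.Fg

/-! # Models of sets of small doubling: the chain with a general start -/

set_option autoImplicit false

open Finset
open scoped Pointwise

namespace Pool.Agent.Y799.FS

variable {G : Type} [AddCommGroup G]

/-- the state after `n` steps, general form -/
def St (A : Finset G) (L : AddSubgroup G) (X : ℝ) (n : ℕ) : Prop :=
  ∃ (H : Type) (_ : AddCommGroup H) (_ : Fintype H) (Ω : Type) (_ : Fintype Ω)
    (φ : G → H) (χ : G → Ω) (M : ℕ),
    Fintype.card Ω ≤ 2 ^ n ∧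
    (∀ x ∈ A, ∀ y ∈ A, ∀ z ∈ A, ∀ w ∈ A, χ x = χ y → χ x = χ z → χ x = χ w → x + y = z + w →
      φ x + φ y = φ z + φ w) ∧
    (∀ x ∈ A, ∀ y ∈ A, ∀ z ∈ A, ∀ w ∈ A, χ x = χ y → χ x = χ z → χ x = χ w →
      φ x + φ y = φ z + φ w → x + y - (z + w) ∈ L) ∧
    (∀ w, (fib A L w).card ≤ M) ∧ (Fintype.card H : ℝ) * M ≤ X

variable [DecidableEq G]

theorem stepG {A : Finset G} (hA : A.Nonempty) {P : ℝ}
    (hP : ((((A + A) - (A + A)) + (A + A)).card : ℝ) ≤ P * A.card)
    {L : AddSubgroup G} {n : ℕ} {X : ℝ} (hS : St A L X n) (p : ℕ) [Fact p.Prime] {V : Type}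
    [AddCommGroup V] [Module (ZMod p) V] (ρ : G →+ V) :
    St A (L ⊓ ρ.ker) (4 * P * X) (n + 1) := by
  classical
  obtain ⟨H, _, _, Ω, _, φ, χ, M, hΩ, h1, h2, hM, hQ⟩ := hS
  obtain ⟨D, hD⟩ : ∃ D : Finset G, D = (A + A) - (A + A) := ⟨_, rfl⟩
  obtain ⟨B0, hB0⟩ : ∃ B0 : Finset V, B0 = (D.filter (fun d => d ∈ L)).image ρ := ⟨_, rfl⟩
  obtain ⟨H', _, _, φ', χ', hc, hφ'⟩ := vec_model p (B0.erase 0).card (B0.erase 0) rfl
    (fun x hx => (Finset.mem_erase.1 hx).1)
  obtain ⟨w0, hw0, hmax⟩ :=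
    Finset.exists_max_image A (fun w => (fib A (L ⊓ ρ.ker) w).card) hA
  refine ⟨H × H', inferInstance, inferInstance, Ω × Bool, inferInstance,
    fun g => (φ g, φ' (ρ g)), fun g => (χ g, χ' (ρ g)), (fib A (L ⊓ ρ.ker) w0).card,
    ?_, ?_, ?_, ?_, ?_⟩
  · rw [Fintype.card_prod, Fintype.card_bool, pow_succ]
    exact Nat.mul_le_mul_right 2 hΩ
  · intro x hx y hy z hz w hw e1 e2 e3 h
    simp only [Prod.mk.injEq] at e1 e2 e3
    have i1 := h1 x hx y hy z hz w hw e1.1 e2.1 e3.1 h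
    have i2 := (hφ' (ρ x) (ρ y) (ρ z) (ρ w) e1.2 e2.2 e3.2).1
      (by rw [← map_add, ← map_add, h])
    show (φ x + φ y, φ' (ρ x) + φ' (ρ y)) = (φ z + φ w, φ' (ρ z) + φ' (ρ w))
    rw [i1, i2]
  · intro x hx y hy z hz w hw e1 e2 e3 h
    simp only [Prod.mk.injEq] at e1 e2 e3
    have h' : (φ x + φ y, φ' (ρ x) + φ' (ρ y)) = (φ z + φ w, φ' (ρ z) + φ' (ρ w)) := h
    rw [Prod.mk.injEq] at h'
    have i1 := h2 x hx y hy z hz w hw e1.1 e2.1 e3.1 h'.1
    have i2 := (hφ' (ρ x) (ρ y) (ρ z) (ρ w) e1.2 e2.2 e3.2).2 h'.2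
    refine ⟨i1, ?_⟩
    show ρ (x + y - (z + w)) = 0
    by_contra hne
    apply i2
    rw [Finset.mem_erase]
    have e : ρ (x + y - (z + w)) = ρ x + ρ y - (ρ z + ρ w) := by
      rw [map_sub, map_add, map_add]
    rw [← e]
    refine ⟨hne, ?_⟩
    rw [hB0]
    apply Finset.mem_image_of_mem
    rw [Finset.mem_filter]
    refine ⟨?_, i1⟩
    rw [hD]
    exact Finset.sub_mem_sub (Finset.add_mem_add hx hy) (Finset.add_mem_add hz hw)
  · intro w
    rcases (fib A (L ⊓ ρ.ker) w).eq_empty_or_nonempty with h | ⟨a, ha⟩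
    · rw [h]; simp
    · have ha' := mem_fib.1 ha
      refine le_trans (Finset.card_le_card ?_) (hmax a ha'.1)
      intro g hg
      rw [mem_fib] at hg ⊢
      refine ⟨hg.1, ?_⟩
      have := (L ⊓ ρ.ker).sub_mem hg.2 ha'.2
      rwa [sub_sub_sub_cancel_right] at this
  · -- cardinalities
    obtain ⟨N, hN⟩ : ∃ N, N = (A.image (QuotientAddGroup.mk : G → G ⧸ L)).card := ⟨_, rfl⟩
    obtain ⟨M', hM'⟩ : ∃ M', M' = (fib A (L ⊓ ρ.ker) w0).card := ⟨_, rfl⟩
    have c1 : B0.card * (N * M') ≤ (D + (A + A)).card := by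
      rw [hB0, hN, hM']
      exact count L ρ w0
    have c2 : ((B0.card : ℝ) * (N * M')) ≤ P * A.card := by
      have := hP
      rw [← hD] at this
      refine le_trans ?_ this
      exact_mod_cast c1
    have c3 : A.card ≤ M * N := by
      rw [hN]
      apply Finset.card_le_mul_card_image
      intro q hq
      obtain ⟨w, hw, rfl⟩ := Finset.mem_image.1 hq
      refine le_trans (Finset.card_le_card ?_) (hM w)
      intro g hg
      rw [Finset.mem_filter] at hg
      rw [mem_fib]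
      refine ⟨hg.1, ?_⟩
      have := QuotientAddGroup.eq.1 hg.2.symm
      rwa [neg_add_eq_sub] at this
    have c3' : (A.card : ℝ) ≤ M * N := by exact_mod_cast c3
    have hApos : (0 : ℝ) < A.card := by exact_mod_cast hA.card_pos
    have hNpos : (0 : ℝ) < N := by
      have : 0 < N := by
        rw [hN]; exact (hA.image _).card_pos
      exact_mod_cast this
    have h0B : (0 : V) ∈ B0 := by
      rw [hB0, Finset.mem_image]
      refine ⟨0, ?_, map_zero ρ⟩
      rw [Finset.mem_filter]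
      refine ⟨?_, L.zero_mem⟩
      obtain ⟨a, ha⟩ := hA
      rw [hD, ← sub_self (a + a)]
      exact Finset.sub_mem_sub (Finset.add_mem_add ha ha) (Finset.add_mem_add ha ha)
    have hBpos : 0 < B0.card := Finset.card_pos.2 ⟨0, h0B⟩
    have c4 : Fintype.card H' ≤ 4 * B0.card := by
      refine hc.trans (max_le (by omega) ?_)
      exact Nat.mul_le_mul_left 4 (Finset.card_le_card (Finset.erase_subset _ _))
    have c4' : (Fintype.card H' : ℝ) ≤ 4 * B0.card := by exact_mod_cast c4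
    rw [← hM', Fintype.card_prod]
    push_cast
    have hH : (0 : ℝ) ≤ Fintype.card H := Nat.cast_nonneg _
    have hM0 : (0 : ℝ) ≤ M' := Nat.cast_nonneg _
    have hP0 : 0 ≤ P := by
      by_contra hneg
      push Not at hneg
      have h3 : P * A.card < 0 := mul_neg_of_neg_of_pos hneg hApos
      have h4 : (0 : ℝ) ≤ (((A + A) - (A + A)) + (A + A)).card := Nat.cast_nonneg _
      linarith
    -- multiply by `N`
    rw [← mul_le_mul_iff_left₀ hNpos]
    calc (Fintype.card H : ℝ) * Fintype.card H' * M' * N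
        ≤ (Fintype.card H : ℝ) * (4 * B0.card) * M' * N := by gcongr
      _ = 4 * (Fintype.card H : ℝ) * (B0.card * (N * M')) := by ring
      _ ≤ 4 * (Fintype.card H : ℝ) * (P * A.card) := by gcongr
      _ ≤ 4 * (Fintype.card H : ℝ) * (P * (M * N)) := by gcongr
      _ = (4 * P) * ((Fintype.card H : ℝ) * M) * N := by ring
      _ ≤ (4 * P) * X * N := by gcongr

theorem finalG {A : Finset G} (hA : A.Nonempty) {X : ℝ} {L : AddSubgroup G} {n : ℕ}
    (hS : St A L X n) (hL : ∀ x ∈ L, x = 0) :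
    ∃ A' ⊆ A, A.card ≤ 2 ^ n * A'.card ∧ ∃ (H : Type) (_ : AddCommGroup H) (_ : Fintype H),
      (Fintype.card H : ℝ) ≤ X ∧ ∃ f : G → H, Raw A' f := by
  classical
  obtain ⟨H, _, _, Ω, _, φ, χ, M, hΩ, h1, h2, hM, hQ⟩ := hS
  obtain ⟨a0, ha0⟩ := id hA
  -- the largest part
  obtain ⟨ω, hω⟩ : ∃ ω : Ω, A.card ≤ 2 ^ n * (A.filter (fun a => χ a = ω)).card := by
    by_contra hcon
    push Not at hcon
    have e := Finset.card_eq_sum_card_fiberwise (f := χ) (s := A) (t := (univ : Finset Ω))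
      (fun _ _ => mem_coe.2 (mem_univ _))
    have h3 : ∑ ω : Ω, 2 ^ n * (A.filter (fun a => χ a = ω)).card < ∑ _ω : Ω, A.card := by
      apply Finset.sum_lt_sum_of_nonempty ⟨χ a0, mem_univ _⟩
      intro ω _
      exact hcon ω
    rw [← Finset.mul_sum, ← e, Finset.sum_const, Finset.card_univ, smul_eq_mul] at h3
    exact absurd (Nat.mul_le_mul_right A.card hΩ) (not_le.2 h3)
  refine ⟨A.filter (fun a => χ a = ω), Finset.filter_subset _ _, hω, H, inferInstance,
    inferInstance, ?_, φ, ?_⟩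
  · have hM1 : 1 ≤ M := by
      refine le_trans ?_ (hM a0)
      exact Finset.card_pos.2 ⟨a0, mem_fib.2 ⟨ha0, by rw [sub_self]; exact L.zero_mem⟩⟩
    have hM1' : (1 : ℝ) ≤ M := by exact_mod_cast hM1
    have hH : (0 : ℝ) ≤ Fintype.card H := Nat.cast_nonneg _
    calc (Fintype.card H : ℝ) ≤ (Fintype.card H : ℝ) * M := by nlinarith
      _ ≤ X := hQ
  · intro a ha b hb c hc d hd
    rw [Finset.mem_filter] at ha hb hc hd
    have e1 : χ a = χ b := by rw [ha.2, hb.2]
    have e2 : χ a = χ c := by rw [ha.2, hc.2]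
    have e3 : χ a = χ d := by rw [ha.2, hd.2]
    constructor
    · intro h
      have h3 := h2 a ha.1 b hb.1 c hc.1 d hd.1 e1 e2 e3 h
      exact sub_eq_zero.1 (hL _ h3)
    · intro h
      exact h1 a ha.1 b hb.1 c hc.1 d hd.1 e1 e2 e3 h

lemma inductG {A : Finset G} (hA : A.Nonempty) {P : ℝ}
    (hP : ((((A + A) - (A + A)) + (A + A)).card : ℝ) ≤ P * A.card)
    {L0 : AddSubgroup G} {X : ℝ} (h0 : St A L0 X 0)
    {N : ℕ} {T : Type} [AddCommGroup T] (π : G →+ T) (hT : ∀ g, N • π g = 0) (S : Finset ℕ) :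
    S ⊆ N.primeFactors → ∃ L : AddSubgroup G, L ≤ L0 ∧ St A L ((4 * P) ^ S.card * X) S.card ∧
      ∀ g ∈ L, ∀ p ∈ S, (N / p) • π g = 0 := by
  classical
  induction S using Finset.induction_on with
  | empty =>
    intro _
    refine ⟨L0, le_rfl, ?_, fun g _ p hp => absurd hp (Finset.notMem_empty p)⟩
    rw [Finset.card_empty, pow_zero, one_mul]
    exact h0
  | insert p S hpS ih =>
    intro hsub
    obtain ⟨L, hLL, hL, hL2⟩ := ih fun x hx => hsub (Finset.mem_insert_of_mem hx)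
    have hp := Nat.mem_primeFactors.1 (hsub (Finset.mem_insert_self p S))
    haveI : Fact p.Prime := ⟨hp.1⟩
    let V := (nsmulAddMonoidHom p : T →+ T).ker
    letI : Module (ZMod p) V := AddCommGroup.zmodModule (n := p) (by
      rintro ⟨x, hx⟩
      apply Subtype.ext
      exact hx)
    let ρ : G →+ V := AddMonoidHom.codRestrict ((nsmulAddMonoidHom (N / p)).comp π) V (by
      intro g
      show p • ((N / p) • π g) = 0
      rw [← mul_nsmul, Nat.div_mul_cancel hp.2.1, hT])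
    refine ⟨L ⊓ ρ.ker, inf_le_left.trans hLL, ?_, ?_⟩
    · rw [Finset.card_insert_of_notMem hpS]
      have := stepG hA hP hL p ρ
      have e : (4 * P) ^ (S.card + 1) * X = 4 * P * ((4 * P) ^ S.card * X) := by ring
      rw [e]
      exact this
    · rintro g ⟨hg1, hg2⟩ q hq
      rcases Finset.mem_insert.1 hq with rfl | hq
      · have : ρ g = 0 := hg2
        exact congrArg Subtype.val this
      · exact hL2 g hg1 q hq

end Pool.Agent.Y799.FS
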