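import Pool.Agent.Y799.FS.Start

/-! # Models of sets of small doubling: groups whose odd torsion has squarefree exponent -/

set_option autoImplicit false

open Finset
open scoped Pointwise DirectSum

namespace Pool.Agent.Y799.FS

/-- the elements of odd order -/
def oddTors (G : Type) [AddCommGroup G] : AddSubgroup G where
  carrier := {g | ∃ m : ℕ, Odd m ∧ m • g = 0}
  zero_mem' := ⟨1, odd_one, smul_zero 1⟩
  add_mem' := by
    rintro a b ⟨m, hm, h⟩ ⟨m', hm', h'⟩
    refine ⟨m * m', hm.mul hm', ?_⟩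
    rw [smul_add, mul_nsmul, h, smul_zero, mul_comm, mul_nsmul, h', smul_zero, add_zero]
  neg_mem' := by
    rintro a ⟨m, hm, h⟩
    exact ⟨m, hm, by rw [smul_neg, h, neg_zero]⟩

lemma quot_oddTors (G : Type) [AddCommGroup G] :
    ∀ (q : G ⧸ oddTors G) (m : ℕ), Odd m → m • q = 0 → q = 0 := by
  intro q m hm h
  obtain ⟨g, rfl⟩ := QuotientAddGroup.mk_surjective q
  have h2 : ((m • g : G) : G ⧸ oddTors G) = 0 := h
  rw [QuotientAddGroup.eq_zero_iff] at h2
  obtain ⟨m', hm', h3⟩ := h2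
  rw [QuotientAddGroup.eq_zero_iff]
  exact ⟨m * m', hm.mul hm', by rw [mul_nsmul]; exact h3⟩

/-- a homomorphism to a group of exponent `N` that is injective on the elements of odd order -/
lemma splitOdd (G : Type) [AddCommGroup G] [AddGroup.FG G] {N : ℕ}
    (htor : ∀ (g : G) (m : ℕ), Odd m → m • g = 0 → N • g = 0) :
    ∃ (T : Type) (_ : AddCommGroup T) (σ : G →+ T),
      (∀ g, N • σ g = 0) ∧ ∀ g ∈ oddTors G, σ g = 0 → g = 0 := by
  classical
  obtain ⟨n, ι, _, p, hp, e, ⟨E⟩⟩ := AddCommGroup.equiv_free_prod_directSum_zmod G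
  obtain ⟨π, hπ⟩ : ∃ π : G →+ ⨁ i : ι, ZMod (p i ^ e i), ∀ g, π g = (E g).2 :=
    ⟨(AddMonoidHom.snd _ _).comp E.toAddMonoidHom, fun _ => rfl⟩
  have hpos : 0 < ∏ i : ι, p i ^ e i := Finset.prod_pos fun i _ => pow_pos (hp i).pos _
  have h1 : ∀ t : ⨁ i : ι, ZMod (p i ^ e i), (∏ i : ι, p i ^ e i) • t = 0 := by
    intro t
    apply DFinsupp.ext
    intro i
    show ((∏ i : ι, p i ^ e i) • t) i = 0
    rw [DFinsupp.smul_apply]
    obtain ⟨c, hc⟩ : p i ^ e i ∣ ∏ i : ι, p i ^ e i := Finset.dvd_prod_of_mem _ (mem_univ i)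
    rw [hc, nsmul_eq_mul, Nat.cast_mul, ZMod.natCast_self, zero_mul, zero_mul]
  obtain ⟨k, m, hm, hkm⟩ := Nat.exists_eq_two_pow_mul_odd hpos.ne'
  rw [hkm] at h1
  refine ⟨_, inferInstance, (nsmulAddMonoidHom (2 ^ k)).comp π, ?_, ?_⟩
  · intro g
    show N • ((2 ^ k) • π g) = 0
    have h2 : m • (E.symm (0, (2 ^ k) • π g)) = 0 := by
      rw [← map_nsmul, Prod.smul_mk, ← mul_nsmul, h1, smul_zero]
      exact map_zero E.symm
    have h3 := htor _ _ hm h2
    rw [← map_nsmul] at h3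
    have h4 : N • ((0 : Fin n →₀ ℤ), (2 ^ k) • π g) = 0 := (AddEquiv.map_eq_zero_iff E.symm).1 h3
    rw [Prod.smul_mk, Prod.mk_eq_zero] at h4
    exact h4.2
  · rintro g ⟨m', hm', hg⟩ hσ
    have h2 : (2 ^ k) • π g = 0 := hσ
    have h3 : m' • π g = 0 := by rw [← map_nsmul, hg, map_zero]
    have h4 : π g = 0 := by
      have hcop : Nat.Coprime (2 ^ k) m' :=
        Nat.Coprime.pow_left k ((Nat.coprime_two_left (n := m')).2 hm')
      have d1 := addOrderOf_dvd_of_nsmul_eq_zero h2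
      have d2 := addOrderOf_dvd_of_nsmul_eq_zero h3
      have := Nat.eq_one_of_dvd_coprimes hcop d1 d2
      exact AddMonoid.addOrderOf_eq_one_iff.1 this
    have h5 : m' • (E g).1 = 0 := by
      have : m' • E g = 0 := by rw [← map_nsmul, hg, map_zero]
      exact congrArg Prod.fst this
    have hm0 : m' ≠ 0 := by
      rintro rfl
      exact absurd hm' (by decide)
    have h6 : (E g).1 = 0 := (smul_eq_zero.1 h5).resolve_left hm0
    have : E g = 0 := Prod.ext h6 ((hπ g).symm.trans h4)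
    exact (AddEquiv.map_eq_zero_iff E).1 this

variable {G : Type} [AddCommGroup G] [DecidableEq G]

lemma one_le_K {A : Finset G} (hA : A.Nonempty) {K : ℝ}
    (hK : ((A + A).card : ℝ) ≤ K * A.card) : 1 ≤ K := by
  have hpos : (0 : ℝ) < A.card := by exact_mod_cast hA.card_pos
  have h1 : A.card ≤ (A + A).card := Finset.card_le_card_add_right hA
  have h2 : (A.card : ℝ) ≤ (A + A).card := by exact_mod_cast h1
  by_contra hcon
  push Not at hcon
  nlinarith

lemma numerics {K : ℝ} (hK : 1 ≤ K) (s : ℕ) :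
    K ^ 3 * (2 * K ^ 3) ^ (10000 : ℕ) * 2 ^ s ≤ (2 * K) ^ (60004 * (s + 1)) ∧
    (4 * (K ^ 6 * (K ^ 3 * (2 * K ^ 3) ^ (10000 : ℕ)))) ^ s *
      ((2 * K ^ 3) ^ (10000 : ℕ) * (K * (K ^ 3 * (2 * K ^ 3) ^ (10000 : ℕ)))) * 2 ^ s ≤
      (2 * K) ^ (60004 * (s + 1)) := by
  obtain ⟨E, hE⟩ : ∃ E : ℝ, E = (2 * K ^ 3) ^ (10000 : ℕ) := ⟨_, rfl⟩
  rw [← hE]
  have hK0 : 0 ≤ K := by linarith
  have h2K : 1 ≤ 2 * K := by linarith
  have hE0 : 0 ≤ E := by rw [hE]; positivity
  have e1 : E ≤ (2 * K) ^ 30000 := by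
    have : (2 * K) ^ 30000 = ((2 * K) ^ 3) ^ (10000 : ℕ) := by rw [← pow_mul]
    rw [this, hE]
    apply pow_le_pow_left₀ (by positivity)
    rw [mul_pow]
    have : 0 ≤ K ^ 3 := by positivity
    linarith
  have e2 : K ^ 3 * E ≤ (2 * K) ^ 30003 := by
    have : (2 * K) ^ 30003 = (2 * K) ^ 3 * (2 * K) ^ 30000 := by rw [← pow_add]
    rw [this]
    apply mul_le_mul _ e1 hE0 (by positivity)
    exact pow_le_pow_left₀ hK0 (by linarith) 3
  have e3 : (2 : ℝ) ^ s ≤ (2 * K) ^ s := pow_le_pow_left₀ (by norm_num) (by linarith) s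
  have e4 : 8 * (K ^ 6 * (K ^ 3 * E)) ≤ (2 * K) ^ 30009 := by
    have : (2 * K) ^ 30009 = (2 * K) ^ 6 * (2 * K) ^ 30003 := by rw [← pow_add]
    rw [this, ← mul_assoc]
    apply mul_le_mul _ e2 (by positivity) (by positivity)
    rw [mul_pow]
    have : 0 ≤ K ^ 6 := by positivity
    linarith
  constructor
  · calc K ^ 3 * E * 2 ^ s ≤ (2 * K) ^ 30003 * (2 * K) ^ s := by
          apply mul_le_mul e2 e3 (by positivity) (by positivity)
      _ = (2 * K) ^ (30003 + s) := by rw [← pow_add]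
      _ ≤ (2 * K) ^ (60004 * (s + 1)) := pow_le_pow_right₀ h2K (by omega)
  · calc (4 * (K ^ 6 * (K ^ 3 * E))) ^ s * (E * (K * (K ^ 3 * E))) * 2 ^ s
        = (8 * (K ^ 6 * (K ^ 3 * E))) ^ s * (E * (K * (K ^ 3 * E))) := by
          rw [mul_right_comm, ← mul_pow]
          congr 2
          ring
      _ ≤ ((2 * K) ^ 30009) ^ s * ((2 * K) ^ 30000 * ((2 * K) ^ 1 * (2 * K) ^ 30003)) := by
          apply mul_le_mul _ _ (by positivity) (by positivity)
          · exact pow_le_pow_left₀ (by positivity) e4 s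
          · apply mul_le_mul e1 _ (by positivity) (by positivity)
            apply mul_le_mul _ e2 (by positivity) (by positivity)
            rw [pow_one]
            linarith
      _ = (2 * K) ^ (30009 * s + (30000 + (1 + 30003))) := by
          rw [← pow_mul, ← pow_add, ← pow_add, ← pow_add]
      _ ≤ (2 * K) ^ (60004 * (s + 1)) := pow_le_pow_right₀ h2K (by omega)

theorem odd_fg [AddGroup.FG G] {N : ℕ} (hN : Squarefree N)
    (htor : ∀ (g : G) (m : ℕ), Odd m → m • g = 0 → N • g = 0)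
    {A : Finset G} (hA : A.Nonempty) {K : ℝ} (hK : ((A + A).card : ℝ) ≤ K * A.card) :
    ∃ A' ⊆ A, (A.card : ℝ) ≤ (2 * K) ^ (60004 * (N.primeFactors.card + 1)) * A'.card ∧
      ∃ (H : Type) (_ : AddCommGroup H) (_ : Fintype H),
        (Fintype.card H : ℝ) ≤ (2 * K) ^ (60004 * (N.primeFactors.card + 1)) * A'.card ∧
        ∃ f : G → H, Raw A' f := by
  classical
  have hK1 : 1 ≤ K := one_le_K hA hK
  have hK0 : 0 ≤ K := by linarith
  obtain ⟨T, _, σ, hσ, hinj⟩ := splitOdd G htor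
  obtain ⟨A1, hA1, hc1, h0⟩ := start hA hK (oddTors G) (quot_oddTors G)
  obtain ⟨num1, num2⟩ := numerics hK1 N.primeFactors.card
  obtain ⟨s, hs⟩ : ∃ s, s = N.primeFactors.card := ⟨_, rfl⟩
  obtain ⟨E, hE⟩ : ∃ E : ℝ, E = (2 * K ^ 3) ^ (10000 : ℕ) := ⟨_, rfl⟩
  obtain ⟨Z, hZ⟩ : ∃ Z : ℝ, Z = (2 * K) ^ (60004 * (N.primeFactors.card + 1)) := ⟨_, rfl⟩
  rw [← hE] at hc1 h0 num1 num2
  rw [← hZ] at num1 num2 ⊢
  rw [← hs] at num1 num2
  have hE0 : 0 ≤ E := by rw [hE]; positivity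
  have hApos : (0 : ℝ) < A.card := by exact_mod_cast hA.card_pos
  have hA1ne : A1.Nonempty := by
    rw [Finset.nonempty_iff_ne_empty]
    rintro rfl
    rw [Finset.card_empty, Nat.cast_zero, mul_zero] at hc1
    linarith
  have hP : ((((A1 + A1) - (A1 + A1)) + (A1 + A1)).card : ℝ) ≤
      (K ^ 6 * (K ^ 3 * E)) * A1.card := by
    have h1 : ((((A1 + A1) - (A1 + A1)) + (A1 + A1)).card : ℝ) ≤
        ((((A + A) - (A + A)) + (A + A)).card : ℝ) := by
      have h2 := Finset.add_subset_add hA1 hA1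
      exact_mod_cast Finset.card_le_card
        (Finset.add_subset_add (Finset.sub_subset_sub h2 h2) h2)
    calc ((((A1 + A1) - (A1 + A1)) + (A1 + A1)).card : ℝ)
        ≤ ((((A + A) - (A + A)) + (A + A)).card : ℝ) := h1
      _ ≤ K ^ 6 * A.card := plue hA hK
      _ ≤ K ^ 6 * (K ^ 3 * E * A1.card) := by gcongr
      _ = (K ^ 6 * (K ^ 3 * E)) * A1.card := by ring
  obtain ⟨L, hLL, hL, hL2⟩ := inductG hA1ne hP h0 σ hσ N.primeFactors (Finset.Subset.refl _)
  rw [← hs] at hL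
  obtain ⟨A', hA', hc', H, _, _, hH, f, hf⟩ := finalG hA1ne hL (by
    intro x hx
    exact hinj x (hLL hx) (torsion_zero hN (hσ x) fun p hp => hL2 x hx p hp))
  have hc'' : (A1.card : ℝ) ≤ 2 ^ s * A'.card := by exact_mod_cast hc'
  have hAA' : (A.card : ℝ) ≤ K ^ 3 * E * (2 ^ s * A'.card) := hc1.trans (by gcongr)
  refine ⟨A', hA'.trans hA1, ?_, H, inferInstance, inferInstance, ?_, f, hf⟩
  · calc (A.card : ℝ) ≤ K ^ 3 * E * (2 ^ s * A'.card) := hAA'
      _ = (K ^ 3 * E * 2 ^ s) * A'.card := by ring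
      _ ≤ Z * A'.card := by gcongr
  · calc (Fintype.card H : ℝ) ≤ (4 * (K ^ 6 * (K ^ 3 * E))) ^ s * (E * (K * A.card)) := hH
      _ ≤ (4 * (K ^ 6 * (K ^ 3 * E))) ^ s * (E * (K * (K ^ 3 * E * (2 ^ s * A'.card)))) := by
          gcongr
      _ = (4 * (K ^ 6 * (K ^ 3 * E))) ^ s * (E * (K * (K ^ 3 * E))) * 2 ^ s * A'.card := by ring
      _ ≤ Z * A'.card := by gcongr

/-- **Main theorem.** -/
theorem odd_main {N : ℕ} (hN : Squarefree N)
    (htor : ∀ (g : G) (m : ℕ), Odd m → m • g = 0 → N • g = 0)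
    {A : Finset G} (hA : A.Nonempty) {K : ℝ} (hK : ((A + A).card : ℝ) ≤ K * A.card) :
    ∃ A' ⊆ A, (A.card : ℝ) ≤ (2 * K) ^ (60004 * (N.primeFactors.card + 1)) * A'.card ∧
      ∃ (H : Type) (_ : AddCommGroup H) (_ : Fintype H),
        (Fintype.card H : ℝ) ≤ (2 * K) ^ (60004 * (N.primeFactors.card + 1)) * A'.card ∧
        ∃ f : G → H, Raw A' f := by
  classical
  obtain ⟨G0, hG0⟩ : ∃ G0 : AddSubgroup G, G0 = AddSubgroup.closure (A : Set G) := ⟨_, rfl⟩
  haveI : AddGroup.FG G0 := by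
    rw [hG0]
    infer_instance
  have hmem : ∀ a ∈ A, a ∈ G0 := fun a ha => by
    rw [hG0]; exact AddSubgroup.subset_closure ha
  obtain ⟨A0, hA0⟩ : ∃ A0 : Finset G0, A0 = A.subtype (· ∈ G0) := ⟨_, rfl⟩
  have hmap : A0.image Subtype.val = A := by
    ext a
    rw [Finset.mem_image]
    constructor
    · rintro ⟨b, hb, rfl⟩
      rw [hA0, Finset.mem_subtype] at hb
      exact hb
    · intro ha
      exact ⟨⟨a, hmem a ha⟩, by rw [hA0, Finset.mem_subtype]; exact ha, rfl⟩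
  have hinj : Function.Injective (Subtype.val : G0 → G) := Subtype.val_injective
  have hcard : A0.card = A.card := by
    rw [← hmap, Finset.card_image_of_injective _ hinj]
  have hadd : (A0 + A0).image Subtype.val = A + A := by
    have : (A0 + A0).image (G0.subtype : G0 → G) =
        A0.image (G0.subtype : G0 → G) + A0.image (G0.subtype : G0 → G) :=
      Finset.image_add (G0.subtype)
    have e : (G0.subtype : G0 → G) = Subtype.val := rfl
    rw [e, hmap] at this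
    exact this
  have hcard2 : (A0 + A0).card = (A + A).card := by
    rw [← hadd, Finset.card_image_of_injective _ hinj]
  have hne : A0.Nonempty := by
    rw [← Finset.card_pos, hcard]; exact hA.card_pos
  have htor' : ∀ (g : G0) (m : ℕ), Odd m → m • g = 0 → N • g = 0 := by
    intro g m hm h
    apply Subtype.ext
    have := congrArg Subtype.val h
    exact htor g m hm this
  obtain ⟨A1, hA1, hc1, H, _, _, hH, f, hf⟩ := odd_fg hN htor' hne (K := K)
    (by rw [hcard, hcard2]; exact hK)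
  have hc2 : (A1.image Subtype.val : Finset G).card = A1.card :=
    Finset.card_image_of_injective _ hinj
  refine ⟨A1.image Subtype.val, ?_, ?_, H, inferInstance, inferInstance, ?_,
    fun g => if h : g ∈ G0 then f ⟨g, h⟩ else 0, ?_⟩
  · rw [← hmap]
    exact Finset.image_subset_image hA1
  · rw [hc2, ← hcard]; exact hc1
  · rw [hc2]; exact hH
  · intro a ha b hb c hc d hd
    obtain ⟨a', ha', rfl⟩ := Finset.mem_image.1 ha
    obtain ⟨b', hb', rfl⟩ := Finset.mem_image.1 hb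
    obtain ⟨c', hc', rfl⟩ := Finset.mem_image.1 hc
    obtain ⟨d', hd', rfl⟩ := Finset.mem_image.1 hd
    simp only [dif_pos (Subtype.prop a'), dif_pos (Subtype.prop b'), dif_pos (Subtype.prop c'),
      dif_pos (Subtype.prop d')]
    rw [hf a' ha' b' hb' c' hc' d' hd', ← Subtype.coe_inj]
    rfl

end Pool.Agent.Y799.FS
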