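import Pool.Agent.Y799.FS.Gen
import Pool.Agent.H112R3.FM.R1
import Pool.Agent.H112R3.FM.R2
import Pool.Agent.H112R3.FM.R3
import Pool.Agent.H112R3.FM.R4
import Pool.Agent.H112R3.FM.R5
import Pool.Agent.H112R3.FM.R6
import Pool.Agent.H112R3.FM.R7
import Pool.Agent.H112R3.FM.R10

/-! # Models of sets of small doubling: the start of the chain -/

set_option autoImplicit false

open Finset
open scoped Pointwise DirectSum

namespace Pool.Agent.Y799.FS

/-- the known case of groups without odd torsion -/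
theorem known {G : Type} [AddCommGroup G] [DecidableEq G]
    (hG : ∀ (g : G) (m : ℕ), Odd m → m • g = 0 → g = 0) (A : Finset G) (K : ℝ)
    (hA : A.Nonempty) (hK : ((A + A).card : ℝ) ≤ K * A.card) :
    ∃ A' ⊆ A, (A.card : ℝ) ≤ (2 * K) ^ (10000 : ℕ) * A'.card ∧
      ∃ (M : Type) (_ : AddCommGroup M) (_ : Fintype M),
        (Fintype.card M : ℝ) ≤ (2 * K) ^ (10000 : ℕ) * A'.card ∧
        ∃ (B : Set M) (f : G → M), IsAddFreimanIso 2 (A' : Set G) B f := by
  open Pool.Agent.H112R3.FM in
  exact r10 (r7 (r2 r1) r3 r4 r5 r6) G hG A K hA hK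

variable {G : Type} [AddCommGroup G] [DecidableEq G]

lemma plu {A : Finset G} (hA : A.Nonempty) {K : ℝ} (hK : ((A + A).card : ℝ) ≤ K * A.card)
    (m n : ℕ) : ((m • A - n • A).card : ℝ) ≤ K ^ (m + n) * A.card := by
  have h := Finset.pluennecke_ruzsa_inequality_nsmul_sub_nsmul_add hA A m n
  have h' : ((m • A - n • A).card : ℝ) ≤
      (((A + A).card : ℝ) / A.card) ^ (m + n) * A.card := by
    have := (NNRat.cast_le (K := ℝ)).2 h
    push_cast at this
    exact this
  have hpos : (0 : ℝ) < A.card := by exact_mod_cast hA.card_pos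
  refine h'.trans ?_
  have h2 : ((A + A).card : ℝ) / A.card ≤ K := by
    rw [div_le_iff₀ hpos]; exact hK
  have h3 : (((A + A).card : ℝ) / A.card) ^ (m + n) ≤ K ^ (m + n) :=
    pow_le_pow_left₀ (by positivity) h2 _
  exact mul_le_mul_of_nonneg_right h3 hpos.le

open Classical in
lemma fibcount (Y A : Finset G) (L : AddSubgroup G) (w : G) :
    (Y.image (QuotientAddGroup.mk' L)).card * (fib A L w).card ≤ (Y + A).card := by
  have ha : ∀ q ∈ Y.image (QuotientAddGroup.mk' L), ∃ a, a ∈ Y ∧ QuotientAddGroup.mk' L a = q := by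
    intro q hq
    obtain ⟨a, ha, rfl⟩ := Finset.mem_image.1 hq
    exact ⟨a, ha, rfl⟩
  choose! r hrA hrq using ha
  rw [← Finset.card_product]
  refine Finset.card_le_card_of_injOn (fun t => r t.1 + t.2) ?_ ?_
  · rintro ⟨q, g⟩ ht
    rw [Finset.mem_coe, Finset.mem_product] at ht
    exact Finset.add_mem_add (hrA q ht.1) (mem_fib.1 ht.2).1
  · rintro ⟨q, g⟩ ht ⟨q', g'⟩ ht' h
    rw [Finset.mem_coe, Finset.mem_product] at ht ht'
    simp only at ht ht' h
    have e1 : QuotientAddGroup.mk' L g = QuotientAddGroup.mk' L w := by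
      have := (mem_fib.1 ht.2).2
      rw [← sub_eq_zero, ← map_sub]
      exact (QuotientAddGroup.eq_zero_iff _).2 this
    have e2 : QuotientAddGroup.mk' L g' = QuotientAddGroup.mk' L w := by
      have := (mem_fib.1 ht'.2).2
      rw [← sub_eq_zero, ← map_sub]
      exact (QuotientAddGroup.eq_zero_iff _).2 this
    have e3 := congrArg (QuotientAddGroup.mk' L) h
    rw [map_add, map_add, hrq q ht.1, hrq q' ht'.1, e1, e2] at e3
    have e4 : q = q' := add_right_cancel e3
    subst e4
    rw [add_left_cancel h]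

/-- a popular translate -/
lemma translate {Q : Type} [AddCommGroup Q] [DecidableEq Q] (A : Finset G) (π : G → Q)
    (B : Finset Q) (hA : A.Nonempty) (hB : B.Nonempty) :
    ∃ x : Q, A.card * B.card ≤
      (A.image π - B).card * (A.filter (fun a => π a - x ∈ B)).card := by
  by_contra hcon
  push Not at hcon
  have h1 : ∑ x ∈ A.image π - B, (A.filter (fun a => π a - x ∈ B)).card = A.card * B.card := by
    have e1 : ∀ x ∈ A.image π - B, (A.filter (fun a => π a - x ∈ B)).card =
        ∑ a ∈ A, if π a - x ∈ B then 1 else 0 := fun x _ => Finset.card_filter _ _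
    rw [Finset.sum_congr rfl e1, Finset.sum_comm]
    have e2 : ∀ a ∈ A, (∑ x ∈ A.image π - B, if π a - x ∈ B then 1 else 0) = B.card := by
      intro a ha
      rw [← Finset.card_filter]
      have e3 : (A.image π - B).filter (fun x => π a - x ∈ B) = B.image (fun b => π a - b) := by
        ext x
        rw [Finset.mem_filter, Finset.mem_image]
        constructor
        · rintro ⟨_, h⟩
          exact ⟨π a - x, h, by abel⟩
        · rintro ⟨b, hb, rfl⟩
          refine ⟨Finset.sub_mem_sub (Finset.mem_image_of_mem π ha) hb, ?_⟩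
          rwa [sub_sub_cancel]
      rw [e3]
      apply Finset.card_image_of_injective
      intro b b' h
      exact sub_right_injective h
    rw [Finset.sum_congr rfl e2, Finset.sum_const, smul_eq_mul]
  have h2 : ∑ x ∈ A.image π - B, (A.image π - B).card * (A.filter (fun a => π a - x ∈ B)).card <
      ∑ _x ∈ A.image π - B, A.card * B.card := by
    apply Finset.sum_lt_sum_of_nonempty
    · exact (hA.image π).sub hB
    · intro x _
      exact hcon x
  rw [← Finset.mul_sum, h1, Finset.sum_const, smul_eq_mul] at h2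
  exact lt_irrefl _ h2

/-- the start of the chain -/
theorem start {A : Finset G} (hA : A.Nonempty) {K : ℝ} (hK : ((A + A).card : ℝ) ≤ K * A.card)
    (L : AddSubgroup G) (hL : ∀ (q : G ⧸ L) (m : ℕ), Odd m → m • q = 0 → q = 0) :
    ∃ A' ⊆ A, (A.card : ℝ) ≤ K ^ 3 * (2 * K ^ 3) ^ (10000 : ℕ) * A'.card ∧
      St A' L ((2 * K ^ 3) ^ (10000 : ℕ) * (K * A.card)) 0 := by
  classical
  obtain ⟨π, hπ⟩ : ∃ π : G →+ G ⧸ L, π = QuotientAddGroup.mk' L := ⟨_, rfl⟩
  obtain ⟨Q, hQ⟩ : ∃ Q : Finset (G ⧸ L), Q = A.image π := ⟨_, rfl⟩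
  obtain ⟨w0, hw0, hmax⟩ := Finset.exists_max_image A (fun w => (fib A L w).card) hA
  obtain ⟨M, hM⟩ : ∃ M, M = (fib A L w0).card := ⟨_, rfl⟩
  rw [← hM] at hmax
  have hApos : (0 : ℝ) < A.card := by exact_mod_cast hA.card_pos
  have hK0 : 0 ≤ K := by
    by_contra hneg
    push Not at hneg
    have h3 : K * A.card < 0 := mul_neg_of_neg_of_pos hneg hApos
    have h4 : (0 : ℝ) ≤ (A + A).card := Nat.cast_nonneg _
    linarith
  have hMpos : (0 : ℝ) < M := by
    have : 0 < M := by
      rw [hM]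
      exact Finset.card_pos.2 ⟨w0, mem_fib.2 ⟨hw0, by rw [sub_self]; exact L.zero_mem⟩⟩
    exact_mod_cast this
  have hfib : ∀ w, (fib A L w).card ≤ M := by
    intro w
    rcases (fib A L w).eq_empty_or_nonempty with h | ⟨a, ha⟩
    · rw [h]; simp
    · have ha' := mem_fib.1 ha
      refine le_trans (Finset.card_le_card ?_) (hmax a ha'.1)
      intro g hg
      rw [mem_fib] at hg ⊢
      refine ⟨hg.1, ?_⟩
      have := L.sub_mem hg.2 ha'.2
      rwa [sub_sub_sub_cancel_right] at this
  have hAQ : (A.card : ℝ) ≤ M * Q.card := by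
    have : A.card ≤ M * Q.card := by
      rw [hQ]
      apply Finset.card_le_mul_card_image
      intro q hq
      obtain ⟨w, hw, rfl⟩ := Finset.mem_image.1 hq
      refine le_trans (Finset.card_le_card ?_) (hfib w)
      intro g hg
      rw [Finset.mem_filter] at hg
      rw [mem_fib]
      refine ⟨hg.1, ?_⟩
      have h2 : π (g - w) = 0 := by rw [map_sub, hg.2, sub_self]
      rw [hπ] at h2
      exact (QuotientAddGroup.eq_zero_iff _).1 h2
    exact_mod_cast this
  have hcnt : ∀ Y : Finset G, ((Y.image π).card : ℝ) * M ≤ (Y + A).card := by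
    intro Y
    have := fibcount Y A L w0
    rw [← hM, ← hπ] at this
    exact_mod_cast this
  -- the three cardinalities
  have p3 : (((A + A) + A).card : ℝ) ≤ K ^ 3 * A.card := by
    have := plu hA hK 3 0
    have e : 3 • A - 0 • A = (A + A) + A := by
      rw [zero_nsmul, sub_zero, show (3 : ℕ) = 2 + 1 from rfl, add_nsmul, two_nsmul, one_nsmul]
    rw [e] at this
    exact this
  have p21 : (((A - A) + A).card : ℝ) ≤ K ^ 3 * A.card := by
    have := plu hA hK 2 1
    have e : 2 • A - 1 • A = (A - A) + A := by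
      rw [one_nsmul, two_nsmul, sub_eq_add_neg, sub_eq_add_neg, add_right_comm]
    rw [e] at this
    exact this
  have hQne : Q.Nonempty := by rw [hQ]; exact hA.image _
  have q1 : ((Q + Q).card : ℝ) ≤ K ^ 3 * Q.card := by
    have e : (A + A).image π = Q + Q := by rw [hQ]; exact Finset.image_add π
    have h := hcnt (A + A)
    rw [e] at h
    rw [← mul_le_mul_iff_left₀ hMpos]
    calc ((Q + Q).card : ℝ) * M ≤ ((A + A) + A).card := h
      _ ≤ K ^ 3 * A.card := p3
      _ ≤ K ^ 3 * (M * Q.card) := by gcongr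
      _ = K ^ 3 * Q.card * M := by ring
  have q2 : ((Q - Q).card : ℝ) ≤ K ^ 3 * Q.card := by
    have e : (A - A).image π = Q - Q := by rw [hQ]; exact Finset.image_image₂_distrib (fun a b => map_sub π a b)
    have h := hcnt (A - A)
    rw [e] at h
    rw [← mul_le_mul_iff_left₀ hMpos]
    calc ((Q - Q).card : ℝ) * M ≤ ((A - A) + A).card := h
      _ ≤ K ^ 3 * A.card := p21
      _ ≤ K ^ 3 * (M * Q.card) := by gcongr
      _ = K ^ 3 * Q.card * M := by ring
  have q3 : (Q.card : ℝ) * M ≤ K * A.card := by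
    have h := hcnt A
    rw [← hQ] at h
    exact h.trans hK
  -- the model of the quotient
  obtain ⟨B, hBQ, hB1, H, _, _, hH, B', f, hf⟩ := known hL Q (K ^ 3) hQne q1
  obtain ⟨E, hE⟩ : ∃ E : ℝ, E = (2 * K ^ 3) ^ (10000 : ℕ) := ⟨_, rfl⟩
  rw [← hE] at hB1 hH ⊢
  have hE0 : 0 ≤ E := by rw [hE]; positivity
  have hQpos : (0 : ℝ) < Q.card := by exact_mod_cast hQne.card_pos
  have hBne : B.Nonempty := by
    rw [Finset.nonempty_iff_ne_empty]
    rintro rfl
    rw [Finset.card_empty, Nat.cast_zero, mul_zero] at hB1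
    linarith
  have hBpos : (0 : ℝ) < B.card := by exact_mod_cast hBne.card_pos
  obtain ⟨x, hx⟩ := translate A π B hA hBne
  rw [← hQ] at hx
  rw [isAddFreimanIso_two] at hf
  obtain ⟨A', hA'⟩ : ∃ A', A' = A.filter (fun a => π a - x ∈ B) := ⟨_, rfl⟩
  rw [← hA'] at hx
  have hsub : A' ⊆ A := by rw [hA']; exact Finset.filter_subset _ _
  refine ⟨A', hsub, ?_, H, inferInstance, inferInstance, Unit, inferInstance,
    fun a => f (π a - x), fun _ => (), M, by simp, ?_, ?_, ?_, ?_⟩
  · have hx' : (A.card : ℝ) * B.card ≤ (Q - B).card * A'.card := by exact_mod_cast hx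
    have hQB : ((Q - B).card : ℝ) ≤ (Q - Q).card := by
      exact_mod_cast Finset.card_le_card (Finset.sub_subset_sub_left hBQ)
    rw [← mul_le_mul_iff_left₀ hBpos]
    calc (A.card : ℝ) * B.card ≤ (Q - B).card * A'.card := hx'
      _ ≤ (Q - Q).card * A'.card := by gcongr
      _ ≤ (K ^ 3 * Q.card) * A'.card := by gcongr
      _ ≤ (K ^ 3 * (E * B.card)) * A'.card := by gcongr
      _ = K ^ 3 * E * A'.card * B.card := by ring
  · intro a ha b hb c hc d hd _ _ _ h
    rw [hA', Finset.mem_filter] at ha hb hc hd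
    refine (hf.2 _ ha.2 _ hb.2 _ hc.2 _ hd.2).2 ?_
    rw [sub_add_sub_comm, sub_add_sub_comm, ← map_add, ← map_add, h]
  · intro a ha b hb c hc d hd _ _ _ h
    rw [hA', Finset.mem_filter] at ha hb hc hd
    have h2 := (hf.2 _ ha.2 _ hb.2 _ hc.2 _ hd.2).1 h
    rw [sub_add_sub_comm, sub_add_sub_comm, ← map_add, ← map_add, sub_left_inj] at h2
    have h3 : π (a + b - (c + d)) = 0 := by rw [map_sub, h2, sub_self]
    rw [hπ] at h3
    exact (QuotientAddGroup.eq_zero_iff _).1 h3
  · intro w
    refine le_trans (Finset.card_le_card ?_) (hfib w)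
    intro g hg
    rw [mem_fib] at hg ⊢
    exact ⟨hsub hg.1, hg.2⟩
  · have hBQ' : (B.card : ℝ) ≤ Q.card := by exact_mod_cast Finset.card_le_card hBQ
    calc (Fintype.card H : ℝ) * M ≤ (E * B.card) * M := by gcongr
      _ ≤ (E * Q.card) * M := by gcongr
      _ = E * (Q.card * M) := by ring
      _ ≤ E * (K * A.card) := by gcongr

end Pool.Agent.Y799.FS
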