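import Pool.Agent.Y799.FS.Odd

/-! # Models of sets of small doubling: adding a torus -/

set_option autoImplicit false

open Finset
open scoped Pointwise

namespace Pool.Agent.Y799.FS

lemma pigeon {G Ω : Type} [Fintype Ω] [DecidableEq Ω] (χ : G → Ω) {A : Finset G}
    (hA : A.Nonempty) :
    ∃ ω, A.card ≤ Fintype.card Ω * (A.filter (fun a => χ a = ω)).card := by
  obtain ⟨a0, ha0⟩ := hA
  by_contra hcon
  push Not at hcon
  have e := Finset.card_eq_sum_card_fiberwise (f := χ) (s := A) (t := (univ : Finset Ω))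
    (fun _ _ => mem_coe.2 (mem_univ _))
  have h3 : ∑ ω : Ω, Fintype.card Ω * (A.filter (fun a => χ a = ω)).card <
      ∑ _ω : Ω, A.card := by
    apply Finset.sum_lt_sum_of_nonempty ⟨χ a0, mem_univ _⟩
    intro ω _
    exact hcon ω
  rw [← Finset.mul_sum, ← e, Finset.sum_const, Finset.card_univ, smul_eq_mul] at h3
  exact lt_irrefl _ h3

/-- the lift to `[0, 1)` -/
noncomputable def lift (t : UnitAddCircle) : ℝ := (AddCircle.equivIco 1 0 t : ℝ)

lemma coe_lift (t : UnitAddCircle) : ((lift t : ℝ) : UnitAddCircle) = t :=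
  (AddCircle.equivIco 1 0).symm_apply_apply t

lemma lift_mem (t : UnitAddCircle) : 0 ≤ lift t ∧ lift t < 1 := by
  have h := Set.mem_Ico.1 (AddCircle.equivIco 1 0 t).2
  refine ⟨h.1, ?_⟩
  have h2 := h.2
  unfold lift
  linarith

/-- four lifts in the same half -/
lemma lift_add {x y z w : UnitAddCircle} (h : x + y = z + w)
    (h1 : (lift x < 1 / 2) = (lift y < 1 / 2)) (h2 : (lift x < 1 / 2) = (lift z < 1 / 2))
    (h3 : (lift x < 1 / 2) = (lift w < 1 / 2)) : lift x + lift y = lift z + lift w := by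
  have e : ((lift x + lift y - (lift z + lift w) : ℝ) : UnitAddCircle) = 0 := by
    have : ((lift x + lift y - (lift z + lift w) : ℝ) : UnitAddCircle) =
        ((lift x : ℝ) : UnitAddCircle) + ((lift y : ℝ) : UnitAddCircle) -
        (((lift z : ℝ) : UnitAddCircle) + ((lift w : ℝ) : UnitAddCircle)) := rfl
    rw [this, coe_lift, coe_lift, coe_lift, coe_lift, h, sub_self]
  rw [AddCircle.coe_eq_zero_iff] at e
  obtain ⟨n, hn⟩ := e
  rw [zsmul_eq_mul, mul_one] at hn
  have bx := lift_mem x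
  have by' := lift_mem y
  have bz := lift_mem z
  have bw := lift_mem w
  have hb : |lift x + lift y - (lift z + lift w)| < 1 := by
    rw [abs_lt]
    by_cases hx : lift x < 1 / 2
    · have hy : lift y < 1 / 2 := h1 ▸ hx
      have hz : lift z < 1 / 2 := h2 ▸ hx
      have hw : lift w < 1 / 2 := h3 ▸ hx
      constructor <;> linarith
    · have hy : ¬ lift y < 1 / 2 := h1 ▸ hx
      have hz : ¬ lift z < 1 / 2 := h2 ▸ hx
      have hw : ¬ lift w < 1 / 2 := h3 ▸ hx
      push Not at hx hy hz hw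
      constructor <;> linarith
  rw [← hn] at hb
  have hn0 : n = 0 := by
    have : |n| < 1 := by exact_mod_cast hb
    exact Int.abs_lt_one_iff.1 this
  rw [hn0, Int.cast_zero] at hn
  linarith

variable {G : Type} [AddCommGroup G]

/-- the pull-back -/
def pull {r : ℕ} (κ : G →+ (Fin r → UnitAddCircle)) : AddSubgroup (G × (Fin r → ℝ)) where
  carrier := {x | ∀ i, ((x.2 i : ℝ) : UnitAddCircle) = κ x.1 i}
  zero_mem' := by
    intro i
    show ((0 : ℝ) : UnitAddCircle) = κ 0 i
    rw [map_zero]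
    rfl
  add_mem' := by
    rintro a b ha hb i
    show ((a.2 i + b.2 i : ℝ) : UnitAddCircle) = κ (a.1 + b.1) i
    rw [map_add, Pi.add_apply, ← ha i, ← hb i]
    rfl
  neg_mem' := by
    rintro a ha i
    show ((-(a.2 i) : ℝ) : UnitAddCircle) = κ (-a.1) i
    rw [map_neg, Pi.neg_apply, ← ha i]
    rfl

/-- the lift of an element -/
noncomputable def lam {r : ℕ} (κ : G →+ (Fin r → UnitAddCircle)) (g : G) : pull κ :=
  ⟨(g, fun i => lift (κ g i)), fun i => coe_lift _⟩

variable [DecidableEq G]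

theorem torus_main {r : ℕ} (κ : G →+ (Fin r → UnitAddCircle)) {N : ℕ} (hN : Squarefree N)
    (htor : ∀ (g : G) (m : ℕ), Odd m → m • g = 0 → κ g = 0 → N • g = 0)
    {A : Finset G} (hA : A.Nonempty) {K : ℝ} (hK : ((A + A).card : ℝ) ≤ K * A.card) :
    ∃ A' ⊆ A, (A.card : ℝ) ≤ (2 ^ (r + 1) * K) ^ (60005 * (N.primeFactors.card + 1)) * A'.card ∧
      ∃ (H : Type) (_ : AddCommGroup H) (_ : Fintype H),
        (Fintype.card H : ℝ) ≤
          (2 ^ (r + 1) * K) ^ (60005 * (N.primeFactors.card + 1)) * A'.card ∧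
        ∃ f : G → H, Raw A' f := by
  classical
  have hK1 : 1 ≤ K := one_le_K hA hK
  have hK0 : 0 ≤ K := by linarith
  obtain ⟨ω, hω⟩ := pigeon (fun g (i : Fin r) => decide (lift (κ g i) < 1 / 2)) hA
  obtain ⟨A1, hA1⟩ : ∃ A1, A1 = A.filter
    (fun g => (fun (i : Fin r) => decide (lift (κ g i) < 1 / 2)) = ω) := ⟨_, rfl⟩
  rw [← hA1] at hω
  have hsub : A1 ⊆ A := by rw [hA1]; exact Finset.filter_subset _ _
  have hcol : ∀ a ∈ A1, ∀ b ∈ A1, ∀ i, (lift (κ a i) < 1 / 2) = (lift (κ b i) < 1 / 2) := by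
    intro a ha b hb i
    rw [hA1, Finset.mem_filter] at ha hb
    have := congrFun (ha.2.trans hb.2.symm) i
    simpa using this
  have hiff : ∀ a ∈ A1, ∀ b ∈ A1, ∀ c ∈ A1, ∀ d ∈ A1,
      (lam κ a + lam κ b = lam κ c + lam κ d ↔ a + b = c + d) := by
    intro a ha b hb c hc d hd
    constructor
    · intro h
      exact congrArg (fun u : pull κ => u.1.1) h
    · intro h
      apply Subtype.ext
      apply Prod.ext
      · exact h
      · funext i
        show lift (κ a i) + lift (κ b i) = lift (κ c i) + lift (κ d i)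
        apply lift_add _ (hcol a ha b hb i) (hcol a ha c hc i) (hcol a ha d hd i)
        have := congrFun (congrArg κ h) i
        rw [map_add, map_add] at this
        exact this
  have hlam : Function.Injective (lam κ) := by
    intro a b h
    exact congrArg (fun u : pull κ => u.1.1) h
  have hcard1 : (A1.image (lam κ)).card = A1.card := Finset.card_image_of_injective _ hlam
  have hcard2 : (A1.image (lam κ) + A1.image (lam κ)).card ≤ (A1 + A1).card := by
    apply Finset.card_le_card_of_injOn (fun u => u.1.1)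
    · intro u hu
      rw [Finset.mem_coe, Finset.mem_add] at hu
      obtain ⟨x, hx, y, hy, rfl⟩ := hu
      obtain ⟨a, ha, rfl⟩ := Finset.mem_image.1 hx
      obtain ⟨b, hb, rfl⟩ := Finset.mem_image.1 hy
      exact Finset.add_mem_add ha hb
    · intro u hu v hv h
      rw [Finset.mem_coe, Finset.mem_add] at hu hv
      obtain ⟨x, hx, y, hy, rfl⟩ := hu
      obtain ⟨a, ha, rfl⟩ := Finset.mem_image.1 hx
      obtain ⟨b, hb, rfl⟩ := Finset.mem_image.1 hy
      obtain ⟨x', hx', y', hy', rfl⟩ := hv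
      obtain ⟨c, hc, rfl⟩ := Finset.mem_image.1 hx'
      obtain ⟨d, hd, rfl⟩ := Finset.mem_image.1 hy'
      exact (hiff a ha b hb c hc d hd).2 h
  have hω' : (A.card : ℝ) ≤ 2 ^ r * A1.card := by
    rw [Fintype.card_fun, Fintype.card_bool, Fintype.card_fin] at hω
    exact_mod_cast hω
  have hApos : (0 : ℝ) < A.card := by exact_mod_cast hA.card_pos
  have hA1ne : A1.Nonempty := by
    rw [Finset.nonempty_iff_ne_empty]
    rintro h
    rw [h, Finset.card_empty, Nat.cast_zero, mul_zero] at hω'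
    linarith
  have hK' : (((A1.image (lam κ)) + A1.image (lam κ)).card : ℝ) ≤
      (2 ^ r * K) * (A1.image (lam κ)).card := by
    rw [hcard1]
    have h1 : ((A1.image (lam κ) + A1.image (lam κ)).card : ℝ) ≤ (A1 + A1).card := by
      exact_mod_cast hcard2
    have h2 : ((A1 + A1).card : ℝ) ≤ (A + A).card := by
      exact_mod_cast Finset.card_le_card (Finset.add_subset_add hsub hsub)
    calc ((A1.image (lam κ) + A1.image (lam κ)).card : ℝ) ≤ (A + A).card := h1.trans h2
      _ ≤ K * A.card := hK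
      _ ≤ K * (2 ^ r * A1.card) := by gcongr
      _ = (2 ^ r * K) * A1.card := by ring
  have htor' : ∀ (x : pull κ) (m : ℕ), Odd m → m • x = 0 → N • x = 0 := by
    intro x m hm h
    have hm0 : m ≠ 0 := by
      rintro rfl
      exact absurd hm (by decide)
    have h1 : m • x.1.1 = 0 := congrArg (fun u : pull κ => u.1.1) h
    have h2 : m • x.1.2 = 0 := congrArg (fun u : pull κ => u.1.2) h
    have h3 : x.1.2 = 0 := (smul_eq_zero.1 h2).resolve_left hm0
    have h4 : κ x.1.1 = 0 := by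
      funext i
      rw [← x.2 i, h3]
      rfl
    have h5 := htor x.1.1 m hm h1 h4
    apply Subtype.ext
    apply Prod.ext
    · exact h5
    · show N • x.1.2 = 0
      rw [h3, smul_zero]
  obtain ⟨B, hB, hc, H, _, _, hH, f, hf⟩ := odd_main hN htor' (hA1ne.image (lam κ)) hK'
  obtain ⟨s, hs⟩ : ∃ s, s = N.primeFactors.card := ⟨_, rfl⟩
  rw [← hs] at hc hH ⊢
  have eK : 2 * (2 ^ r * K) = 2 ^ (r + 1) * K := by ring
  rw [eK] at hc hH
  obtain ⟨Y, hY⟩ : ∃ Y : ℝ, Y = 2 ^ (r + 1) * K := ⟨_, rfl⟩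
  rw [← hY] at hc hH ⊢
  have hY1 : 1 ≤ Y := by
    rw [hY]
    have : (1 : ℝ) ≤ 2 ^ (r + 1) := one_le_pow₀ (by norm_num)
    nlinarith
  have hY2 : (2 : ℝ) ^ r ≤ Y := by
    rw [hY, pow_succ]
    have : (0 : ℝ) < 2 ^ r := by positivity
    nlinarith
  have hBA : ∀ u ∈ B, u.1.1 ∈ A1 ∧ lam κ u.1.1 = u := by
    intro u hu
    obtain ⟨a, ha, rfl⟩ := Finset.mem_image.1 (hB hu)
    exact ⟨ha, rfl⟩
  have hcB : (B.image (fun u => u.1.1)).card = B.card := by
    apply Finset.card_image_of_injOn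
    intro u hu v hv h
    rw [← (hBA u hu).2, ← (hBA v hv).2]
    exact congrArg (lam κ) h
  refine ⟨B.image (fun u => u.1.1), ?_, ?_, H, inferInstance, inferInstance, ?_,
    fun g => f (lam κ g), ?_⟩
  · intro g hg
    obtain ⟨u, hu, rfl⟩ := Finset.mem_image.1 hg
    exact hsub (hBA u hu).1
  · rw [hcB]
    rw [hcard1] at hc
    calc (A.card : ℝ) ≤ 2 ^ r * A1.card := hω'
      _ ≤ 2 ^ r * (Y ^ (60004 * (s + 1)) * B.card) := by gcongr
      _ ≤ Y * (Y ^ (60004 * (s + 1)) * B.card) := by gcongr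
      _ = Y ^ (60004 * (s + 1) + 1) * B.card := by ring
      _ ≤ Y ^ (60005 * (s + 1)) * B.card :=
          mul_le_mul_of_nonneg_right (pow_le_pow_right₀ hY1 (by omega)) (Nat.cast_nonneg _)
  · rw [hcB]
    calc (Fintype.card H : ℝ) ≤ Y ^ (60004 * (s + 1)) * B.card := hH
      _ ≤ Y ^ (60005 * (s + 1)) * B.card :=
          mul_le_mul_of_nonneg_right (pow_le_pow_right₀ hY1 (by omega)) (Nat.cast_nonneg _)
  · intro a ha b hb c hc d hd
    obtain ⟨a', ha', rfl⟩ := Finset.mem_image.1 ha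
    obtain ⟨b', hb', rfl⟩ := Finset.mem_image.1 hb
    obtain ⟨c', hc', rfl⟩ := Finset.mem_image.1 hc
    obtain ⟨d', hd', rfl⟩ := Finset.mem_image.1 hd
    have h1 := hf a' ha' b' hb' c' hc' d' hd'
    show f (lam κ a'.1.1) + f (lam κ b'.1.1) = f (lam κ c'.1.1) + f (lam κ d'.1.1) ↔ _
    rw [(hBA a' ha').2, (hBA b' hb').2, (hBA c' hc').2, (hBA d' hd').2, h1]
    have h2 := hiff _ (hBA a' ha').1 _ (hBA b' hb').1 _ (hBA c' hc').1 _ (hBA d' hd').1
    rw [(hBA a' ha').2, (hBA b' hb').2, (hBA c' hc').2, (hBA d' hd').2] at h2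
    exact h2

end Pool.Agent.Y799.FS
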