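import Mathlib

/-! # Models in vector spaces over prime fields, uniformly in the prime -/

set_option autoImplicit false

open Finset

namespace Pool.Agent.Y799.FS

/-- the values of a random functional at a nonzero vector are equidistributed -/
lemma card_dual {p : ℕ} [Fact p.Prime] {W : Type} [AddCommGroup W] [Module (ZMod p) W]
    [Fintype (Module.Dual (ZMod p) W)] [DecidableEq (ZMod p)] (x : W) (hx : x ≠ 0) (t : ZMod p) :
    (univ.filter (fun g : Module.Dual (ZMod p) W => g x = t)).card * p =
      Fintype.card (Module.Dual (ZMod p) W) := by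
  classical
  -- the evaluation is surjective
  have hsurj : ∀ t : ZMod p, ∃ g : Module.Dual (ZMod p) W, g x = t := by
    intro t
    obtain ⟨g, hg⟩ : ∃ g : Module.Dual (ZMod p) W, g x ≠ 0 := by
      by_contra h
      push Not at h
      exact hx ((Module.forall_dual_apply_eq_zero_iff (ZMod p) x).1 h)
    refine ⟨(t * (g x)⁻¹) • g, ?_⟩
    simp [mul_assoc, inv_mul_cancel₀ hg]
  let ev : Module.Dual (ZMod p) W →+ ZMod p := {
    toFun := fun g => g x
    map_zero' := rfl
    map_add' := fun _ _ => rfl }
  have hev : ∀ g, ev g = g x := fun _ => rfl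
  have hfib : ∀ u : ZMod p, (univ.filter (fun g : Module.Dual (ZMod p) W => g x = u)).card =
      (univ.filter (fun g : Module.Dual (ZMod p) W => g x = t)).card := by
    intro u
    have h := AddMonoidHom.card_fiber_eq_of_mem_range ev (x := u) (y := t)
      (by obtain ⟨g, hg⟩ := hsurj u; exact ⟨g, hg⟩) (by obtain ⟨g, hg⟩ := hsurj t; exact ⟨g, hg⟩)
    simpa [hev] using h
  have h := Finset.card_eq_sum_card_fiberwise
    (f := fun g : Module.Dual (ZMod p) W => g x) (s := univ) (t := (univ : Finset (ZMod p)))
    (fun _ _ => mem_coe.2 (mem_univ _))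
  rw [Finset.sum_congr rfl fun u _ => hfib u, Finset.sum_const, smul_eq_mul, Finset.card_univ,
    Finset.card_univ, ZMod.card] at h
  rw [h, mul_comm]

/-- a functional which is rarely in `T` on `B` -/
lemma exists_functional {V : Type} [AddCommGroup V] (p : ℕ) [Fact p.Prime] [Module (ZMod p) V]
    (B : Finset V) (hB : ∀ x ∈ B, x ≠ 0) (T : Finset (ZMod p)) :
    ∃ f : V →ₗ[ZMod p] ZMod p,
      (B.filter (fun x => f x ∈ T)).card * p ≤ B.card * T.card := by
  classical
  let W := Submodule.span (ZMod p) (B : Set V)
  have : FiniteDimensional (ZMod p) W := FiniteDimensional.span_finset _ B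
  have : Finite (Module.Dual (ZMod p) W) := Module.finite_of_finite (ZMod p)
  have : Fintype (Module.Dual (ZMod p) W) := Fintype.ofFinite _
  have hext : ∀ g : Module.Dual (ZMod p) W, ∃ f : V →ₗ[ZMod p] ZMod p, ∀ x : W, f x = g x := by
    intro g
    obtain ⟨f, hf⟩ := LinearMap.exists_extend g
    exact ⟨f, fun x => by rw [← hf]; rfl⟩
  choose ext hext using hext
  have hW : ∀ x ∈ B, x ∈ W := fun x hx => Submodule.subset_span hx
  by_contra hcon
  push Not at hcon
  have hp : 0 < p := (Fact.out : p.Prime).pos
  -- double counting
  have h1 : ∑ g : Module.Dual (ZMod p) W, (B.filter (fun x => ext g x ∈ T)).card * p =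
      Fintype.card (Module.Dual (ZMod p) W) * (B.card * T.card) := by
    have e1 : ∀ g : Module.Dual (ZMod p) W, (B.filter (fun x => ext g x ∈ T)).card =
        ∑ x ∈ B, ∑ t ∈ T, if ext g x = t then 1 else 0 := by
      intro g
      rw [Finset.card_filter]
      refine Finset.sum_congr rfl fun x _ => ?_
      rw [Finset.sum_ite_eq]
    rw [← Finset.sum_mul]
    simp only [e1]
    rw [Finset.sum_comm, Finset.sum_mul]
    have e2 : ∀ x ∈ B, (∑ g : Module.Dual (ZMod p) W, ∑ t ∈ T,
        if ext g x = t then 1 else 0) * p = T.card * Fintype.card (Module.Dual (ZMod p) W) := by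
      intro x hx
      rw [Finset.sum_comm, Finset.sum_mul]
      rw [Finset.sum_congr rfl (g := fun _ => Fintype.card (Module.Dual (ZMod p) W)) fun t _ => ?_]
      · rw [Finset.sum_const, smul_eq_mul]
      · rw [← Finset.card_filter]
        rw [← card_dual (⟨x, hW x hx⟩ : W) (fun h => hB x hx (congrArg Subtype.val h)) t]
        congr 2
        ext g
        simp only [Finset.mem_filter, Finset.mem_univ, true_and]
        rw [← hext g ⟨x, hW x hx⟩]
    rw [Finset.sum_congr rfl e2, Finset.sum_const, smul_eq_mul]
    ring
  have h2 : ∑ g : Module.Dual (ZMod p) W, (B.card * T.card) <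
      ∑ g : Module.Dual (ZMod p) W, (B.filter (fun x => ext g x ∈ T)).card * p := by
    apply Finset.sum_lt_sum_of_nonempty
    · exact ⟨0, mem_univ _⟩
    · intro g _; exact hcon (ext g)
  rw [h1, Finset.sum_const, Finset.card_univ, smul_eq_mul] at h2
  exact lt_irrefl _ h2

/-- models in vector spaces -/
theorem vec_model {V : Type} [AddCommGroup V] (p : ℕ) [Fact p.Prime] [Module (ZMod p) V] :
    ∀ (β : ℕ) (B : Finset V), B.card = β → (∀ x ∈ B, x ≠ 0) →
    ∃ (H : Type) (_ : AddCommGroup H) (_ : Fintype H) (φ : V → H) (χ : V → Bool),
      Fintype.card H ≤ max 1 (4 * β) ∧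
      ∀ x y z w, χ x = χ y → χ x = χ z → χ x = χ w →
        (x + y = z + w → φ x + φ y = φ z + φ w) ∧
        (φ x + φ y = φ z + φ w → x + y - (z + w) ∉ B) := by
  classical
  have hp : 0 < p := (Fact.out : p.Prime).pos
  have : NeZero p := ⟨hp.ne'⟩
  intro β
  induction β using Nat.strong_induction_on with
  | _ β ih =>
    intro B hBc hB
    rcases Nat.eq_zero_or_pos β with h0 | hβ
    · subst h0
      rw [Finset.card_eq_zero] at hBc
      subst hBc
      exact ⟨Unit, inferInstance, inferInstance, fun _ => (), fun _ => true, by simp,
        fun x y z w _ _ _ => ⟨fun _ => rfl, fun _ => by simp⟩⟩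
    by_cases hpβ : p ≤ 4 * β
    · -- one full functional
      obtain ⟨f, hf⟩ := exists_functional p B hB {0}
      rw [Finset.card_singleton, mul_one, hBc] at hf
      set B1 := B.filter (fun x => f x ∈ ({0} : Finset (ZMod p))) with hB1
      have hlt : B1.card < β := by
        have h2 : 2 ≤ p := (Fact.out : p.Prime).two_le
        nlinarith
      obtain ⟨H, _, _, φ, χ, hcard, hφ⟩ := ih B1.card hlt B1 rfl
        (fun x hx => hB x (Finset.mem_filter.1 hx).1)
      refine ⟨H × ZMod p, inferInstance, inferInstance, fun v => (φ v, f v), χ, ?_, ?_⟩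
      · rw [Fintype.card_prod, ZMod.card]
        refine le_trans (Nat.mul_le_mul_right p hcard) ?_
        rcases le_total 1 (4 * B1.card) with h | h
        · rw [max_eq_right h]
          refine le_trans ?_ (le_max_right _ _)
          calc 4 * B1.card * p = 4 * (B1.card * p) := by ring
            _ ≤ 4 * β := Nat.mul_le_mul_left 4 hf
        · rw [max_eq_left h, one_mul]
          exact le_trans hpβ (le_max_right _ _)
      · intro x y z w h1 h2 h3
        obtain ⟨i1, i2⟩ := hφ x y z w h1 h2 h3
        constructor
        · intro h
          have e : f x + f y = f z + f w := by rw [← map_add, ← map_add, h]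
          show (φ x, f x) + (φ y, f y) = (φ z, f z) + (φ w, f w)
          rw [Prod.mk_add_mk, Prod.mk_add_mk, i1 h, e]
        · intro h hmem
          have h' : (φ x + φ y, f x + f y) = (φ z + φ w, f z + f w) := h
          rw [Prod.mk.injEq] at h'
          apply i2 h'.1
          rw [hB1, Finset.mem_filter]
          refine ⟨hmem, ?_⟩
          rw [Finset.mem_singleton, map_sub, map_add, map_add, h'.2, sub_self]
    · -- the last functional, read modulo `4 β`
      push Not at hpβ
      obtain ⟨M, hM⟩ : ∃ M, M = 4 * β := ⟨_, rfl⟩
      have hM0 : 0 < M := by omega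
      have : NeZero M := ⟨hM0.ne'⟩
      obtain ⟨q, hq⟩ : ∃ q, q = (p - 1) / M := ⟨_, rfl⟩
      have hqM : q * M ≤ p - 1 := by rw [hq]; exact Nat.div_mul_le_self _ _
      set T : Finset (ZMod p) := (Finset.Icc (-(q : ℤ)) q).image
        (fun k => ((k * (M : ℤ) : ℤ) : ZMod p)) with hT
      have hTc : T.card ≤ 2 * q + 1 := by
        refine le_trans Finset.card_image_le ?_
        rw [Int.card_Icc]
        omega
      obtain ⟨f, hf⟩ := exists_functional p B hB T
      have hnone : B.filter (fun x => f x ∈ T) = ∅ := by
        rw [← Finset.card_eq_zero]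
        by_contra hne
        have h1 : 1 ≤ (B.filter (fun x => f x ∈ T)).card := Nat.one_le_iff_ne_zero.2 hne
        have h2 : p ≤ β * (2 * q + 1) := by
          calc p = 1 * p := (one_mul p).symm
            _ ≤ (B.filter (fun x => f x ∈ T)).card * p := Nat.mul_le_mul_right p h1
            _ ≤ B.card * T.card := hf
            _ ≤ β * (2 * q + 1) := by rw [hBc]; exact Nat.mul_le_mul_left β hTc
        have h3 : q * (4 * β) ≤ p - 1 := by rw [← hM]; exact hqM
        have h4 : 4 * (β * (2 * q + 1)) = 2 * (q * (4 * β)) + 4 * β := by ring
        omega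
      refine ⟨ZMod M, inferInstance, inferInstance, fun v => ((f v).val : ZMod M),
        fun v => decide (2 * (f v).val < p), ?_, ?_⟩
      · rw [ZMod.card, hM]
        exact le_max_right _ _
      · intro x y z w h1 h2 h3
        obtain ⟨r, hr⟩ : ∃ r : ℤ, r = (f x).val + (f y).val - ((f z).val + (f w).val) := ⟨_, rfl⟩
        have hrp : ((r : ℤ) : ZMod p) = f x + f y - (f z + f w) := by
          rw [hr]; push_cast
          simp only [ZMod.natCast_val, ZMod.cast_id', id_eq]
        have bx := ZMod.val_lt (f x)
        have bY := ZMod.val_lt (f y)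
        have bz := ZMod.val_lt (f z)
        have bw := ZMod.val_lt (f w)
        have hr1 : |r| < p := by
          rw [abs_lt, hr]
          by_cases hx : 2 * (f x).val < p
          · have hy : 2 * (f y).val < p := by simpa [hx] using h1.symm
            have hz : 2 * (f z).val < p := by simpa [hx] using h2.symm
            have hw : 2 * (f w).val < p := by simpa [hx] using h3.symm
            omega
          · have hy : ¬ 2 * (f y).val < p := by
              intro h; apply hx; simpa [h] using h1
            have hz : ¬ 2 * (f z).val < p := by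
              intro h; apply hx; simpa [h] using h2
            have hw : ¬ 2 * (f w).val < p := by
              intro h; apply hx; simpa [h] using h3
            omega
        constructor
        · intro h
          have e : f x + f y = f z + f w := by rw [← map_add, ← map_add, h]
          have h4 : ((r : ℤ) : ZMod p) = 0 := by rw [hrp, e, sub_self]
          have h5 : (p : ℤ) ∣ r := (ZMod.intCast_zmod_eq_zero_iff_dvd r p).1 h4
          have h6 : r = 0 := Int.eq_zero_of_abs_lt_dvd h5 hr1
          have h7 : (f x).val + (f y).val = (f z).val + (f w).val := by omega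
          show ((f x).val : ZMod M) + ((f y).val : ZMod M) =
            ((f z).val : ZMod M) + ((f w).val : ZMod M)
          rw [← Nat.cast_add, ← Nat.cast_add, h7]
        · intro h hmem
          have h' : ((f x).val : ZMod M) + ((f y).val : ZMod M) =
            ((f z).val : ZMod M) + ((f w).val : ZMod M) := h
          have h4 : ((r : ℤ) : ZMod M) = 0 := by
            rw [hr]; push_cast; rw [h', sub_self]
          have h5 : (M : ℤ) ∣ r := (ZMod.intCast_zmod_eq_zero_iff_dvd r M).1 h4
          obtain ⟨k, hk⟩ := h5
          have hbad : f (x + y - (z + w)) ∈ T := by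
            rw [map_sub, map_add, map_add, ← hrp, hT, Finset.mem_image]
            refine ⟨k, ?_, by rw [hk, mul_comm]⟩
            rw [Finset.mem_Icc]
            have hkM : |k| * M < p := by
              calc |k| * (M : ℤ) = |r| := by
                    rw [hk, abs_mul, mul_comm, abs_of_nonneg (by positivity : (0:ℤ) ≤ (M:ℤ))]
                _ < p := hr1
            have hkq : |k| ≤ q := by
              have h6 : k.natAbs * M ≤ p - 1 := by
                have : ((k.natAbs * M : ℕ) : ℤ) < p := by
                  push_cast; exact hkM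
                have : k.natAbs * M < p := by exact_mod_cast this
                omega
              have h7 : k.natAbs ≤ (p - 1) / M := (Nat.le_div_iff_mul_le hM0).2 h6
              rw [← hq] at h7
              have : (k.natAbs : ℤ) ≤ q := by exact_mod_cast h7
              rwa [Int.natCast_natAbs] at this
            exact abs_le.1 hkq
          have : x + y - (z + w) ∈ B.filter (fun x => f x ∈ T) :=
            Finset.mem_filter.2 ⟨hmem, hbad⟩
          rw [hnone] at this
          exact absurd this (Finset.notMem_empty _)

end Pool.Agent.Y799.FS
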